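import Mathlib

/-! # Clique-width -/

set_option autoImplicit false

namespace Pool.Agent.Lib.MP_37c7bf_co_CW

/-- Expressions for graphs on vertices in `V` with labels in `Fin k`: a single vertex `v` with
label `i`; the disjoint union; all edges between vertices with label `i` and vertices with label
`j`; changing all labels `i` to `j`. -/
inductive CExpr (k : ℕ) (V : Type) : Type
  | vertex (v : V) (i : Fin k)
  | union (e f : CExpr k V)
  | join (i j : Fin k) (e : CExpr k V)
  | relabel (i j : Fin k) (e : CExpr k V)

namespace CExpr

variable {k : ℕ} {V : Type}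

/-- The list of the vertices created by the expression. -/
def verts : CExpr k V → List V
  | vertex v _ => [v]
  | union e f => e.verts ++ f.verts
  | join _ _ e => e.verts
  | relabel _ _ e => e.verts

/-- The vertex `u` has label `l` in the graph built by the expression. -/
def Label : CExpr k V → V → Fin k → Prop
  | vertex v i => fun u l => u = v ∧ l = i
  | union e f => fun u l => e.Label u l ∨ f.Label u l
  | join _ _ e => e.Label
  | relabel i j e => fun u l => (e.Label u l ∧ l ≠ i) ∨ (e.Label u i ∧ l = j)

/-- The vertices `u` and `v` are adjacent in the graph built by the expression. -/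
def Adj : CExpr k V → V → V → Prop
  | vertex _ _ => fun _ _ => False
  | union e f => fun u v => e.Adj u v ∨ f.Adj u v
  | join i j e => fun u v => e.Adj u v ∨
      (i ≠ j ∧ ((e.Label u i ∧ e.Label v j) ∨ (e.Label u j ∧ e.Label v i)))
  | relabel _ _ e => e.Adj

end CExpr

/-- `G` has clique-width at most `k`: it is built by an expression with `k` labels that creates
every vertex exactly once. -/
def CliquewidthLE {V : Type} (G : SimpleGraph V) (k : ℕ) : Prop :=
  ∃ e : CExpr k V, e.verts.Nodup ∧ (∀ v, v ∈ e.verts) ∧ ∀ u v, G.Adj u v ↔ e.Adj u v

end Pool.Agent.Lib.MP_37c7bf_co_CW
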