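import Pool.Agent.Lib.MP_37c7bf_co_CW.Defs
import Pool.Agent.Lib.MP_37c7bf_co_h26tw.Tw

section CutCoverPart

/-!
# The cuts of the sparse graph are covered by few vertices

If the vertices of `A` have at most `k` kinds of neighbourhoods outside `A`, then at most `bnd k`
vertices cover all edges of `HG G` between `A` and its complement.
-/

set_option autoImplicit false

namespace Pool.Agent.Lib.MP_37c7bf_co_CW

open Function

namespace CutCover

/-! ### Finite sets and enumerations -/

section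

variable {V : Type}

theorem exists_fun_of_card (S : Finset V) (m : ℕ) (h : m ≤ S.card) :
    ∃ x : Fin m → V, Injective x ∧ ∀ l, x l ∈ S := by
  obtain ⟨T, hT, hc⟩ := Finset.exists_subset_card_eq h
  refine ⟨fun l => (T.equivFin.symm (Fin.cast hc.symm l) : T), ?_, fun l => ?_⟩
  · intro a b hab
    exact Fin.cast_injective _ (T.equivFin.symm.injective (Subtype.ext hab))
  · exact hT (T.equivFin.symm (Fin.cast hc.symm l)).2

theorem card_le_of_fun {S : Finset V} {m : ℕ} {x : Fin m → V} (hx : Injective x)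
    (h : ∀ l, x l ∈ S) : m ≤ S.card := by
  have h1 := Finset.card_le_card_of_injOn x (s := Finset.univ) (t := S) (fun l _ => h l)
    hx.injOn
  simpa using h1

/-- A map from `Fin m` changed at one place is injective if the new value is new. -/
theorem update_inj {m : ℕ} {p : Fin m → V} (hp : Injective p) (i : Fin m) {v : V}
    (hv : ∀ j, p j ≠ v) : Injective (update p i v) := by
  intro a b hab
  by_cases ha : a = i
  · by_cases hb : b = i
    · rw [ha, hb]
    · rw [ha, update_self, update_of_ne hb] at hab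
      exact absurd hab.symm (hv b)
  · by_cases hb : b = i
    · rw [hb, update_self, update_of_ne ha] at hab
      exact absurd hab (hv a)
    · rw [update_of_ne ha, update_of_ne hb] at hab
      exact hp hab

/-- Two functions defining a `K_{10,4}`. -/
theorem exists_seed {A : V → V → Prop} {p : Fin 10 → V} {q : Fin 4 → V} (hp : Injective p)
    (hq : Injective q) (hpq : ∀ i j, p i ≠ q j) (hA : ∀ i j, A (p i) (q j)) :
    ∃ s, SeedR A s ∧ (∀ i, InM A s (p i)) ∧ ∀ j, InM A s (q j) := by
  have hs : SeedR A (Fin.append p q) := by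
    refine ⟨Fin.append_injective_iff.2 ⟨hp, hq, hpq⟩, fun i j hi hj => ?_⟩
    have h1 : i = Fin.castAdd 4 ⟨i, hi⟩ := Fin.ext rfl
    have h2 : j = Fin.natAdd 10 (⟨(j : ℕ) - 10, by omega⟩ : Fin 4) := by
      apply Fin.ext
      simp only [Fin.val_natAdd]
      omega
    rw [h1, h2, Fin.append_left, Fin.append_right]
    exact hA _ _
  refine ⟨_, hs, fun i => ?_, fun j => ?_⟩
  · have h := inM_seed hs (Fin.castAdd 4 i)
    rwa [Fin.append_left] at h
  · have h := inM_seed hs (Fin.natAdd 10 j)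
    rwa [Fin.append_right] at h

/-- All vertices of a complete bipartite graph with at least 10 and at least 4 vertices are in
one cluster. -/
theorem exists_seed_of_bip {A : V → V → Prop} {P Q : Finset V} (hP : 10 ≤ P.card)
    (hQ : 4 ≤ Q.card) (hd : ∀ a ∈ P, a ∉ Q) (hA : ∀ a ∈ P, ∀ b ∈ Q, A a b) :
    ∃ s, (∀ v ∈ P, InM A s v) ∧ ∀ v ∈ Q, InM A s v := by
  obtain ⟨p, hp, hpP⟩ := exists_fun_of_card P 10 hP
  obtain ⟨q, hq, hqQ⟩ := exists_fun_of_card Q 4 hQ
  have hne : ∀ {a b : V}, a ∈ P → b ∈ Q → a ≠ b := fun ha hb hab => hd _ ha (hab ▸ hb)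
  obtain ⟨s, -, hsp, hsq⟩ := exists_seed hp hq (fun i j => hne (hpP i) (hqQ j))
    (fun i j => hA _ (hpP i) _ (hqQ j))
  refine ⟨s, fun v hv => ?_, fun v hv => ?_⟩
  · by_cases h : ∃ i, p i = v
    · obtain ⟨i, rfl⟩ := h
      exact hsp i
    · push Not at h
      have hP' : ∀ i, update p 0 v i ∈ P := fun i => by
        by_cases hi : i = 0
        · rw [hi, update_self]
          exact hv
        · rw [update_of_ne hi]
          exact hpP i
      obtain ⟨t, -, htp, htq⟩ := exists_seed (update_inj hp 0 h) hq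
        (fun i j => hne (hP' i) (hqQ j)) (fun i j => hA _ (hP' i) _ (hqQ j))
      have h1 := htp 0
      rw [update_self] at h1
      exact (InM.merge (x := fun l : Fin 3 => q (Fin.castSucc l))
        (hq.comp (Fin.castSucc_injective 3)) (fun l => ⟨hsq _, htq _⟩) v).2 h1
  · by_cases h : ∃ i, q i = v
    · obtain ⟨i, rfl⟩ := h
      exact hsq i
    · push Not at h
      have hQ' : ∀ i, update q 0 v i ∈ Q := fun i => by
        by_cases hi : i = 0
        · rw [hi, update_self]
          exact hv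
        · rw [update_of_ne hi]
          exact hqQ i
      obtain ⟨t, -, htp, htq⟩ := exists_seed hp (update_inj hq 0 h)
        (fun i j => hne (hpP i) (hQ' j)) (fun i j => hA _ (hpP i) _ (hQ' j))
      have h1 := htq 0
      rw [update_self] at h1
      exact (InM.merge (x := fun l : Fin 3 => p (Fin.castLE (by norm_num : 3 ≤ 10) l))
        (hp.comp (Fin.castLE_injective (by norm_num : 3 ≤ 10))) (fun l => ⟨hsp _, htp _⟩) v).2 h1

/-- Three elements of `Fin n` outside a small set. -/
theorem exists_good {m : ℕ} (B : Finset (Fin 14)) (S : Finset (Fin 14)) (hB : B.card ≤ 2)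
    (hS : m + 2 ≤ S.card) : ∃ x : Fin m → Fin 14, Injective x ∧ ∀ l, x l ∈ S ∧ x l ∉ B := by
  have h1 : m ≤ (S \ B).card := by
    have := Finset.le_card_sdiff B S
    omega
  obtain ⟨x, hx, hx'⟩ := exists_fun_of_card (S \ B) m h1
  exact ⟨x, hx, fun l => Finset.mem_sdiff.1 (hx' l)⟩

/-- The combinatorics of a `K_{10,4}`: outside at most two bad vertices there is no crossing
edge. -/
theorem same_side (B : Finset (Fin 14)) (hB : B.card ≤ 2) (c : Fin 14 → Prop)
    (h1 : ∀ i j j' : Fin 14, (i : ℕ) < 10 → 10 ≤ (j : ℕ) → 10 ≤ (j' : ℕ) → i ∉ B → j ∉ B →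
      j' ∉ B → j ≠ j' → ¬ (c i ↔ c j) → ¬ (c i ↔ c j') → False)
    (h2 : ∀ i i' j : Fin 14, (i : ℕ) < 10 → (i' : ℕ) < 10 → 10 ≤ (j : ℕ) → i ∉ B → i' ∉ B →
      j ∉ B → i ≠ i' → ¬ (c i ↔ c j) → ¬ (c i' ↔ c j) → False) :
    ∀ i j : Fin 14, i ∉ B → j ∉ B → (c i ↔ c j) := by
  obtain ⟨x, hx, hx'⟩ := exists_good (m := 2) B (Finset.univ.filter fun i : Fin 14 => 10 ≤ (i : ℕ))
    hB (by decide)
  obtain ⟨y, hy, hy'⟩ := exists_good (m := 3) B (Finset.univ.filter fun i : Fin 14 => (i : ℕ) < 10)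
    hB (by decide)
  simp only [Finset.mem_filter, Finset.mem_univ, true_and] at hx' hy'
  have hlast : ∀ j j' : Fin 14, 10 ≤ (j : ℕ) → 10 ≤ (j' : ℕ) → j ∉ B → j' ∉ B →
      (c j ↔ c j') := by
    intro j j' hj hj' hjB hjB'
    by_contra hne
    have key : ∀ l l' : Fin 3, l ≠ l' → ¬ (c (y l) ↔ c j) → ¬ (c (y l') ↔ c j) → False :=
      fun l l' hl ha hb => h2 (y l) (y l') j (hy' l).1 (hy' l').1 hj (hy' l).2 (hy' l').2 hjB
        (fun h => hl (hy h)) ha hb
    have key' : ∀ l l' : Fin 3, l ≠ l' → ¬ (c (y l) ↔ c j') → ¬ (c (y l') ↔ c j') → False :=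
      fun l l' hl ha hb => h2 (y l) (y l') j' (hy' l).1 (hy' l').1 hj' (hy' l).2 (hy' l').2 hjB'
        (fun h => hl (hy h)) ha hb
    have o : ∀ l, ¬ (c (y l) ↔ c j) ∨ ¬ (c (y l) ↔ c j') := fun l => by
      by_contra hh
      push Not at hh
      exact hne (hh.1.symm.trans hh.2)
    rcases o 0 with a0 | a0
    · rcases o 1 with a1 | a1
      · exact key 0 1 (by decide) a0 a1
      · rcases o 2 with a2 | a2
        · exact key 0 2 (by decide) a0 a2
        · exact key' 1 2 (by decide) a1 a2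
    · rcases o 1 with a1 | a1
      · rcases o 2 with a2 | a2
        · exact key 1 2 (by decide) a1 a2
        · exact key' 0 2 (by decide) a0 a2
      · exact key' 0 1 (by decide) a0 a1
  have hx0 := hx' 0
  have hx1 := hx' 1
  have hx01 : x 0 ≠ x 1 := fun h => absurd (hx h) (by decide)
  have hall : ∀ i : Fin 14, i ∉ B → (c i ↔ c (x 0)) := by
    intro i hi
    by_cases h : (i : ℕ) < 10
    · by_contra hne
      have h3 := hlast (x 0) (x 1) hx0.1 hx1.1 hx0.2 hx1.2
      exact h1 i (x 0) (x 1) h hx0.1 hx1.1 hi hx0.2 hx1.2 hx01 hne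
        (fun h4 => hne (h4.trans h3.symm))
    · exact hlast i (x 0) (by omega) hx0.1 hi hx0.2
  exact fun i j hi hj => (hall i hi).trans (hall j hj).symm

end

/-! ### Clusters as finite sets -/

section

variable {V : Type} [Fintype V] [LinearOrder V]

open Classical in
/-- The cluster of `s`. -/
noncomputable def clu (A : V → V → Prop) (s : Fin 14 → V) : Finset V :=
  Finset.univ.filter (InM A s)

omit [LinearOrder V] in
theorem mem_clu {A : V → V → Prop} {s : Fin 14 → V} {v : V} : v ∈ clu A s ↔ InM A s v := by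
  classical
  simp [clu]

theorem clu_eq {A : V → V → Prop} {s t : Fin 14 → V} (h : 3 ≤ (clu A s ∩ clu A t).card) :
    clu A s = clu A t := by
  obtain ⟨x, hx, hx'⟩ := exists_fun_of_card _ 3 h
  ext v
  rw [mem_clu, mem_clu]
  refine InM.merge hx (fun l => ?_) v
  have h1 := hx' l
  rw [Finset.mem_inter, mem_clu, mem_clu] at h1
  exact h1

open Classical in
/-- The three smallest elements of a finite set. -/
noncomputable def low (D : Finset V) : Finset V :=
  D.filter fun x => ¬ ∃ y : Fin 3 → V, Injective y ∧ ∀ l, y l ∈ D ∧ y l < x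

theorem card_low (D : Finset V) : (low D).card ≤ 3 := by
  classical
  by_contra h
  have hne : (low D).Nonempty := Finset.card_pos.1 (by omega)
  have hm := Finset.max'_mem (low D) hne
  have h1 : 3 ≤ ((low D).erase ((low D).max' hne)).card := by
    rw [Finset.card_erase_of_mem hm]
    omega
  obtain ⟨y, hy, hy'⟩ := exists_fun_of_card _ 3 h1
  have hm' := hm
  simp only [low, Finset.mem_filter] at hm'
  refine hm'.2 ⟨y, hy, fun l => ?_⟩
  have h2 := Finset.mem_erase.1 (hy' l)
  exact ⟨(Finset.mem_filter.1 h2.2).1, lt_of_le_of_ne (Finset.le_max' _ _ h2.2) h2.1⟩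

theorem isBase_iff {A : V → V → Prop} {s : Fin 14 → V} {v : V} :
    IsBase (InM A) s v ↔ v ∈ low (clu A s) := by
  classical
  simp only [IsBase, low, Finset.mem_filter, mem_clu]

/-! ### A cluster without crossing edges lies on one side -/

theorem card_bad {A : V → V → Prop} {C Sp : Finset V} (hC : (C ∩ Sp).card ≤ 2)
    {s : Fin 14 → V} (hs : SeedR A s) (hsC : clu A s = C) :
    (Finset.univ.filter fun i => s i ∈ Sp).card ≤ 2 := by
  refine le_trans (Finset.card_le_card_of_injOn s (fun i hi => ?_) hs.1.injOn) hC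
  have hi' := (Finset.mem_filter.1 (Finset.mem_coe.1 hi)).2
  rw [Finset.mem_coe, Finset.mem_inter, ← hsC, mem_clu]
  exact ⟨inM_seed hs i, hi'⟩

theorem one_side (G : SimpleGraph V) {A Sp C : Finset V} (hC : (C ∩ Sp).card ≤ 2)
    (hm : ∀ u v w, u ∈ C → v ∈ C → w ∈ C → u ∉ Sp → v ∉ Sp → w ∉ Sp → G.Adj u v → G.Adj u w →
      ¬ (u ∈ A ↔ v ∈ A) → ¬ (u ∈ A ↔ w ∈ A) → v = w)
    {s : Fin 14 → V} {v : V} (hv : InM G.Adj s v) (hsC : clu G.Adj s = C) (hvS : v ∉ Sp)
    (j : Fin 14) (hj : s j ∉ Sp) : v ∈ A ↔ s j ∈ A := by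
  have hseed : ∀ s : Fin 14 → V, SeedR G.Adj s → clu G.Adj s = C → ∀ i j : Fin 14, s i ∉ Sp →
      s j ∉ Sp → (s i ∈ A ↔ s j ∈ A) := by
    intro s hs hsC i j hi hj
    have hmem : ∀ i, s i ∈ C := fun i => by
      rw [← hsC, mem_clu]
      exact inM_seed hs i
    have hB : ∀ i, i ∉ (Finset.univ.filter fun i => s i ∈ Sp) → s i ∉ Sp := fun i hi h =>
      hi (Finset.mem_filter.2 ⟨Finset.mem_univ i, h⟩)
    refine same_side _ (card_bad hC hs hsC) (fun i => s i ∈ A) ?_ ?_ i j
      (fun h => hi (Finset.mem_filter.1 h).2) (fun h => hj (Finset.mem_filter.1 h).2)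
    · intro i j j' h1 h2 h3 h4 h5 h6 h7 h8 h9
      exact h7 (hs.1 (hm (s i) (s j) (s j') (hmem _) (hmem _) (hmem _) (hB _ h4) (hB _ h5)
        (hB _ h6) (hs.2 i j h1 h2) (hs.2 i j' h1 h3) h8 h9))
    · intro i i' j h1 h2 h3 h4 h5 h6 h7 h8 h9
      exact h7 (hs.1 (hm (s j) (s i) (s i') (hmem _) (hmem _) (hmem _) (hB _ h6) (hB _ h4)
        (hB _ h5) (hs.2 i j h1 h3).symm (hs.2 i' j h2 h3).symm (fun h => h8 h.symm)
        (fun h => h9 h.symm)))
  have key : ∀ s v, InM G.Adj s v → (clu G.Adj s = C → v ∉ Sp → ∀ j, s j ∉ Sp →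
      (v ∈ A ↔ s j ∈ A)) := by
    intro s v hv
    refine InM.ind (A := G.Adj) (R := fun s v => clu G.Adj s = C → v ∉ Sp → ∀ j, s j ∉ Sp →
      (v ∈ A ↔ s j ∈ A)) ?_ hv
    rintro s v ⟨hs, ⟨i, rfl⟩ | ⟨t, ⟨x, hx, h1⟩, h2, h3⟩⟩ hsC hvS j hj
    · exact hseed s hs hsC i j hvS hj
    · have htC : clu G.Adj t = C := by
        rw [← hsC]
        ext w
        rw [mem_clu, mem_clu]
        exact (InM.merge hx (fun l => ⟨(h1 l).1.1, (h1 l).2.1⟩) w).symm
      have hx' : ∃ l, x l ∉ Sp := by
        by_contra hcon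
        push Not at hcon
        have := card_le_of_fun (S := C ∩ Sp) hx fun l => Finset.mem_inter.2
          ⟨by rw [← hsC, mem_clu]; exact (h1 l).1.1, hcon l⟩
        omega
      obtain ⟨l, hl⟩ := hx'
      obtain ⟨y, -, hy⟩ := exists_good (m := 1) _ Finset.univ
        (card_bad hC h2.seed htC) (by decide)
      have hy0 : t (y 0) ∉ Sp := fun h => (hy 0).2 (Finset.mem_filter.2 ⟨Finset.mem_univ _, h⟩)
      exact ((h3 htC hvS (y 0) hy0).trans ((h1 l).2.2 htC hl (y 0) hy0).symm).trans
        ((h1 l).1.2 hsC hl j hj)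
  exact key s v hv hsC hvS j hj

end

end CutCover

open CutCover in
/-- The cuts of the sparse graph are covered by few vertices. -/
theorem covered_HG {V : Type} [Fintype V] [LinearOrder V] (G : SimpleGraph V) {k : ℕ}
    {A : Finset V} (hA : Cut G k A) : Covered (HG G) (bnd k) A := by
  classical
  obtain ⟨lab, hlab⟩ := hA
  obtain ⟨P, hP⟩ : ∃ P : Fin k → Finset V, ∀ i v, v ∈ P i ↔ v ∈ A ∧ lab v = i :=
    ⟨fun i => A.filter fun v => lab v = i, fun i v => Finset.mem_filter⟩
  obtain ⟨M, hM⟩ : ∃ M : Fin k → Finset V, ∀ i v, v ∈ M i ↔ v ∉ A ∧ ∃ a ∈ A, lab a = i ∧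
      G.Adj a v :=
    ⟨fun i => Finset.univ.filter fun v => v ∉ A ∧ ∃ a ∈ A, lab a = i ∧ G.Adj a v,
      fun i v => by simp only [Finset.mem_filter, Finset.mem_univ, true_and]⟩
  have hPM : ∀ i, ∀ a ∈ P i, ∀ b ∈ M i, G.Adj a b := by
    intro i a ha b hb
    obtain ⟨h1, h2⟩ := (hP i a).1 ha
    obtain ⟨h3, c, hc, h4, h5⟩ := (hM i b).1 hb
    exact hlab c hc a h1 (h4.trans h2.symm) b h3 h5
  have hPM' : ∀ i, ∀ a ∈ P i, a ∉ M i := fun i a ha hb => ((hM i a).1 hb).1 ((hP i a).1 ha).1
  have hSE : ∀ i, ∃ S E : Finset V, S.card ≤ 9 ∧ ((P i ⊆ S ∨ M i ⊆ S) ∨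
      ∃ s, E = clu G.Adj s ∧ P i ⊆ E ∧ M i ⊆ E) := by
    intro i
    by_cases h1 : (P i).card ≤ 9
    · exact ⟨P i, ∅, h1, Or.inl (Or.inl (Finset.Subset.refl _))⟩
    · by_cases h2 : (M i).card ≤ 9
      · exact ⟨M i, ∅, h2, Or.inl (Or.inr (Finset.Subset.refl _))⟩
      · obtain ⟨s, h3, h4⟩ := exists_seed_of_bip (P := P i) (Q := M i) (by omega) (by omega)
          (hPM' i) (hPM i)
        exact ⟨∅, clu G.Adj s, by simp, Or.inr ⟨s, rfl, fun v hv => mem_clu.2 (h3 v hv),
          fun v hv => mem_clu.2 (h4 v hv)⟩⟩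
  choose S E hS9 hSE using hSE
  -- the vertices in two different big clusters
  obtain ⟨Z, hZ⟩ : ∃ Z : Finset V, Z.card ≤ 2 * k ^ 2 ∧ ∀ i j, E i ≠ E j →
      (E i ∩ E j).card ≤ 2 → E i ∩ E j ⊆ Z := by
    refine ⟨Finset.univ.biUnion fun p : Fin k × Fin k =>
      if (E p.1 ∩ E p.2).card ≤ 2 then E p.1 ∩ E p.2 else ∅, ?_, ?_⟩
    · refine (Finset.card_biUnion_le_card_mul _ _ 2 fun p _ => ?_).trans (le_of_eq ?_)
      · split_ifs with h
        · exact h
        · simp
      · simp only [Finset.card_univ, Fintype.card_prod, Fintype.card_fin]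
        ring
    · intro i j hij hc v hv
      refine Finset.mem_biUnion.2 ⟨(i, j), Finset.mem_univ _, ?_⟩
      simp only [if_pos hc]
      exact hv
  obtain ⟨Sp, hSpc, hSpS, hSpZ⟩ : ∃ Sp : Finset V, Sp.card ≤ 9 * k + 2 * k ^ 2 ∧
      (∀ i, S i ⊆ Sp) ∧ Z ⊆ Sp := by
    refine ⟨Finset.univ.biUnion S ∪ Z, ?_, fun i => ?_, Finset.subset_union_right⟩
    · refine (Finset.card_union_le _ _).trans (Nat.add_le_add ?_ hZ.1)
      refine (Finset.card_biUnion_le_card_mul _ _ 9 fun i _ => hS9 i).trans (le_of_eq ?_)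
      simp only [Finset.card_univ, Fintype.card_fin]
      ring
    · exact (Finset.subset_biUnion_of_mem S (Finset.mem_univ i)).trans
        Finset.subset_union_left
  -- the bases of the clusters with three vertices in `Sp`
  have hF : ∀ τ : Fin 3 → V, ∃ L : Finset V, L.card ≤ 3 ∧ ∀ s, Injective τ →
      (∀ l, InM G.Adj s (τ l)) → L = low (clu G.Adj s) := by
    intro τ
    by_cases h : ∃ s, Injective τ ∧ ∀ l, InM G.Adj s (τ l)
    · obtain ⟨s, h1, h2⟩ := h
      refine ⟨low (clu G.Adj s), card_low _, fun t _ h3 => ?_⟩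
      rw [clu_eq (card_le_of_fun h1 fun l => Finset.mem_inter.2
        ⟨mem_clu.2 (h2 l), mem_clu.2 (h3 l)⟩)]
    · exact ⟨∅, by simp, fun s h1 h2 => absurd ⟨s, h1, h2⟩ h⟩
  choose F hF3 hF using hF
  refine ⟨Sp ∪ (Finset.univ.biUnion fun i => low (E i)) ∪
    (Fintype.piFinset fun _ : Fin 3 => Sp).biUnion F, ?_, ?_⟩
  · have h1 : (Finset.univ.biUnion fun i : Fin k => low (E i)).card ≤ k * 3 := by
      refine (Finset.card_biUnion_le_card_mul _ _ 3 fun i _ => card_low _).trans (le_of_eq ?_)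
      simp only [Finset.card_univ, Fintype.card_fin]
    have h2 : ((Fintype.piFinset fun _ : Fin 3 => Sp).biUnion F).card ≤ Sp.card ^ 3 * 3 := by
      refine (Finset.card_biUnion_le_card_mul _ _ 3 fun i _ => hF3 i).trans (le_of_eq ?_)
      rw [Fintype.card_piFinset]
      simp only [Finset.prod_const, Finset.card_univ, Fintype.card_fin]
    have h3 : Sp.card ^ 3 ≤ (9 * k + 2 * k ^ 2) ^ 3 := Nat.pow_le_pow_left hSpc 3
    have h4 := Finset.card_union_le (Sp ∪ (Finset.univ.biUnion fun i => low (E i)))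
      ((Fintype.piFinset fun _ : Fin 3 => Sp).biUnion F)
    have h5 := Finset.card_union_le Sp (Finset.univ.biUnion fun i => low (E i))
    rw [bnd]
    omega
  intro x hxA y hyA hadj
  by_contra hcon
  rw [not_or] at hcon
  obtain ⟨hxX, hyX⟩ := hcon
  simp only [Finset.mem_union, Finset.mem_biUnion, Finset.mem_univ, true_and, not_or, not_exists,
    Fintype.mem_piFinset, not_and] at hxX hyX
  obtain ⟨⟨hxS, hxlow⟩, hxF⟩ := hxX
  obtain ⟨⟨hyS, hylow⟩, hyF⟩ := hyX
  have hbig : ∀ a b, a ∈ A → b ∉ A → G.Adj a b → a ∉ Sp → b ∉ Sp →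
      ∃ s, E (lab a) = clu G.Adj s ∧ a ∈ E (lab a) ∧ b ∈ E (lab a) := by
    intro a b ha hb hab haS hbS
    have haP : a ∈ P (lab a) := (hP _ _).2 ⟨ha, rfl⟩
    have hbM : b ∈ M (lab a) := (hM _ _).2 ⟨hb, a, ha, rfl, hab⟩
    rcases hSE (lab a) with (h | h) | ⟨s, h1, h2, h3⟩
    · exact absurd (hSpS _ (h haP)) haS
    · exact absurd (hSpS _ (h hbM)) hbS
    · exact ⟨s, h1, h2 haP, h3 hbM⟩
  obtain ⟨hxy, ⟨h1, h2⟩ | ⟨s, hx1, hy1, hbase⟩⟩ := hadj
  · obtain ⟨s, hs, ha, hb⟩ := hbig x y hxA hyA h1 hxS hyS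
    rw [hs, mem_clu] at ha hb
    exact h2 ⟨s, ha, hb⟩
  rw [isBase_iff, isBase_iff] at hbase
  have hne : ∀ i, E i ≠ clu G.Adj s := by
    intro i h
    rcases hbase with h' | h'
    · exact hxlow i (h ▸ h')
    · exact hylow i (h ▸ h')
  have hC2 : (clu G.Adj s ∩ Sp).card ≤ 2 := by
    by_contra h
    obtain ⟨τ, hτ, hτ'⟩ := exists_fun_of_card (clu G.Adj s ∩ Sp) 3 (by omega)
    have h3 := hF τ s hτ fun l => mem_clu.1 (Finset.mem_inter.1 (hτ' l)).1
    rcases hbase with h' | h'
    · exact hxF τ (fun l => (Finset.mem_inter.1 (hτ' l)).2) (h3 ▸ h')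
    · exact hyF τ (fun l => (Finset.mem_inter.1 (hτ' l)).2) (h3 ▸ h')
  have hthree : ∀ a b c i, a ∈ clu G.Adj s → b ∈ clu G.Adj s → c ∈ clu G.Adj s → a ∈ E i →
      b ∈ E i → c ∈ E i → a ≠ b → a ≠ c → b ≠ c → (∃ t, E i = clu G.Adj t) → False := by
    rintro a b c i ha hb hc ha' hb' hc' hab hac hbc ⟨t, ht⟩
    refine hne i ?_
    rw [ht] at ha' hb' hc' ⊢
    exact clu_eq (Finset.two_lt_card.2 ⟨a, Finset.mem_inter.2 ⟨ha', ha⟩, b,
      Finset.mem_inter.2 ⟨hb', hb⟩, c, Finset.mem_inter.2 ⟨hc', hc⟩, hab, hac, hbc⟩)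
  have hm : ∀ u v w, u ∈ clu G.Adj s → v ∈ clu G.Adj s → w ∈ clu G.Adj s → u ∉ Sp → v ∉ Sp →
      w ∉ Sp → G.Adj u v → G.Adj u w → ¬ (u ∈ A ↔ v ∈ A) → ¬ (u ∈ A ↔ w ∈ A) → v = w := by
    intro u v w huC hvC hwC huS hvS hwS huv huw hc1 hc2
    by_contra hvw
    by_cases hu : u ∈ A
    · have hv : v ∉ A := fun h => hc1 ⟨fun _ => h, fun _ => hu⟩
      have hw : w ∉ A := fun h => hc2 ⟨fun _ => h, fun _ => hu⟩
      obtain ⟨t, ht, h1, h2⟩ := hbig u v hu hv huv huS hvS
      obtain ⟨t', ht', h3, h4⟩ := hbig u w hu hw huw huS hwS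
      exact hthree u v w (lab u) huC hvC hwC h1 h2 h4 huv.ne huw.ne hvw ⟨t, ht⟩
    · have hv : v ∈ A := by
        by_contra h
        exact hc1 ⟨fun h' => absurd h' hu, fun h' => absurd h' h⟩
      have hw : w ∈ A := by
        by_contra h
        exact hc2 ⟨fun h' => absurd h' hu, fun h' => absurd h' h⟩
      obtain ⟨t, ht, h1, h2⟩ := hbig v u hv hu huv.symm hvS huS
      obtain ⟨t', ht', h3, h4⟩ := hbig w u hw hu huw.symm hwS huS
      by_cases he : E (lab v) = E (lab w)
      · exact hthree u v w (lab v) huC hvC hwC h2 h1 (he ▸ h3) huv.ne huw.ne hvw ⟨t, ht⟩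
      · refine huS (hSpZ (hZ.2 _ _ he ?_ (Finset.mem_inter.2 ⟨h2, h4⟩)))
        by_contra hcard
        refine he ?_
        rw [ht, ht'] at hcard ⊢
        exact clu_eq (by omega)
  obtain ⟨z, -, hz⟩ := exists_good (m := 1) _ Finset.univ
    (card_bad hC2 hx1.seed rfl) (by decide)
  have hz0 : s (z 0) ∉ Sp := fun h => (hz 0).2 (Finset.mem_filter.2 ⟨Finset.mem_univ _, h⟩)
  have h1 := one_side G hC2 hm hx1 rfl hxS (z 0) hz0
  have h2 := one_side G hC2 hm hy1 rfl hyS (z 0) hz0
  exact hyA (h2.2 (h1.1 hxA))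

end Pool.Agent.Lib.MP_37c7bf_co_CW

end CutCoverPart

section MainBoundPart

/-!
# Few main clusters across a cut without large induced matchings

`main_le`: at most `k` different clusters are main clusters of a cut with `Mim G k A`.
`crosser_le`, `crosser_le'`: at most `k` different clusters through two given vertices `u`, `w`
have a vertex `a` on one side and a neighbour of `u`, `w`, `a` on the other side.
`exists_reps`: representatives of the clusters with a given property.
-/

set_option autoImplicit false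

namespace Pool.Agent.Lib.MP_37c7bf_co_MW

open Function

variable {V : Type}

/-- The clusters of `s` and `t` have at most two common vertices. -/
def FarW (G : SimpleGraph V) (s t : Fin 14 → V) : Prop :=
  ¬ ∃ x : Fin 3 → V, Injective x ∧ ∀ l, InW G.Adj s (x l) ∧ InW G.Adj t (x l)

theorem FarW.symm {G : SimpleGraph V} {s t : Fin 14 → V} (h : FarW G s t) : FarW G t s :=
  fun ⟨x, hx, h1⟩ => h ⟨x, hx, fun l => (h1 l).symm⟩

/-- Clusters that are not far are equal. -/
theorem inW_iff_of_not_farW {G : SimpleGraph V} {s t : Fin 14 → V} (h : ¬ FarW G s t) (v : V) :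
    InW G.Adj s v ↔ InW G.Adj t v := by
  obtain ⟨x, hx, h1⟩ := not_not.1 h
  exact InW.merge hx h1 v

/-- Being far depends on the clusters only. -/
theorem FarW.congr {G : SimpleGraph V} {s s' t t' : Fin 14 → V}
    (h1 : ∀ v, InW G.Adj s v ↔ InW G.Adj s' v) (h2 : ∀ v, InW G.Adj t v ↔ InW G.Adj t' v) :
    FarW G s t ↔ FarW G s' t' := by
  unfold FarW
  simp only [h1, h2]

/-- A seed is not far from itself. -/
theorem not_farW_self {G : SimpleGraph V} {s : Fin 14 → V}
    (hs : Pool.Agent.Lib.MP_37c7bf_co_CW.SeedR G.Adj s) : ¬ FarW G s s := fun h =>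
  h ⟨fun l => s (Fin.castLE (by norm_num : 3 ≤ 14) l),
    hs.1.comp (Fin.castLE_injective (by norm_num : 3 ≤ 14)),
    fun _ => ⟨inW_seed hs _, inW_seed hs _⟩⟩

theorem exists_three {S : Finset V} (h : 3 ≤ S.card) :
    ∃ x : Fin 3 → V, Injective x ∧ ∀ l, x l ∈ S := by
  obtain ⟨T, hT, hc⟩ := Finset.exists_subset_card_eq h
  refine ⟨fun l => (T.equivFin.symm (Fin.cast hc.symm l) : T), ?_, fun l => ?_⟩
  · intro a b hab
    exact Fin.cast_injective _ (T.equivFin.symm.injective (Subtype.ext hab))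
  · exact hT (T.equivFin.symm (Fin.cast hc.symm l)).2

/-- A large set has an element outside `k` sets each meeting it in at most two elements. -/
theorem exists_mem_not {k : ℕ} (Q : Finset V) (hQ : 2 * k < Q.card) (B : Fin (k + 1) → V → Prop)
    (j : Fin (k + 1)) (hB : ∀ i, i ≠ j → ¬ ∃ x : Fin 3 → V, Injective x ∧ ∀ l, x l ∈ Q ∧ B i (x l)) :
    ∃ v ∈ Q, ∀ i, i ≠ j → ¬ B i v := by
  classical
  by_contra hcon
  push Not at hcon
  have hsub : Q ⊆ (Finset.univ.erase j).biUnion fun i => Q.filter (B i) := by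
    intro v hv
    obtain ⟨i, hi, hiv⟩ := hcon v hv
    exact Finset.mem_biUnion.2 ⟨i, Finset.mem_erase.2 ⟨hi, Finset.mem_univ _⟩,
      Finset.mem_filter.2 ⟨hv, hiv⟩⟩
  have h1 := Finset.card_le_card hsub
  have h2 : ((Finset.univ.erase j).biUnion fun i => Q.filter (B i)).card ≤
      (Finset.univ.erase j).card * 2 := by
    refine Finset.card_biUnion_le_card_mul _ _ 2 fun i hi => ?_
    by_contra h3
    obtain ⟨x, hx, hx'⟩ := exists_three (S := Q.filter (B i)) (by omega)
    exact hB i (Finset.ne_of_mem_erase hi) ⟨x, hx, fun l => Finset.mem_filter.1 (hx' l)⟩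
  rw [Finset.card_erase_of_mem (Finset.mem_univ _), Finset.card_univ, Fintype.card_fin] at h2
  omega

/-- At most `k` different clusters are main clusters. -/
theorem main_le {V : Type} (G : SimpleGraph V) (k : ℕ) (A : Finset V) (hA : Mim G k A) (m : ℕ)
    (s : Fin m → Fin 14 → V) (hs : ∀ i, Main G k A (s i))
    (hd : ∀ i j, i ≠ j → FarW G (s i) (s j)) : m ≤ k := by
  by_contra hcon
  have hkm : k + 1 ≤ m := by omega
  set t : Fin (k + 1) → Fin 14 → V := fun i => s (Fin.castLE hkm i) with ht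
  have htd : ∀ i j, i ≠ j → FarW G (t i) (t j) := fun i j hij =>
    hd _ _ fun h => hij (Fin.castLE_injective hkm h)
  have htm : ∀ i, Main G k A (t i) := fun i => hs _
  choose P Q hP hQ hPA hQA hPQ using htm
  have ha : ∀ j, ∃ a ∈ P j, ∀ i, i ≠ j → ¬ InW G.Adj (t i) a := fun j =>
    exists_mem_not (P j) (by rw [hP]; omega) (fun i => InW G.Adj (t i)) j
      fun i hi ⟨x, hx, h⟩ => htd i j hi ⟨x, hx, fun l => ⟨(h l).2, (hPA j _ (h l).1).2⟩⟩
  choose a haP ha using ha
  have hb : ∀ j, ∃ b ∈ Q j, ∀ i, i ≠ j → ¬ G.Adj (a i) b := fun j =>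
    exists_mem_not (Q j) (by rw [hQ]; omega) (fun i b => G.Adj (a i) b) j
      fun i hi ⟨x, hx, h⟩ => ha i j hi.symm (InW.nbr hx fun l => ⟨(hQA j _ (h l).1).2, (h l).2⟩)
  choose b hbQ hb using hb
  have h1 := hA (k + 1) a b (fun i => ⟨(hPA i _ (haP i)).1, (hQA i _ (hbQ i)).1⟩) fun i j => by
    constructor
    · intro h
      by_contra hij
      exact hb j i hij h
    · rintro rfl
      exact hPQ i _ (haP i) _ (hbQ i)
  omega

/-- The main point for clusters through `u` and `w`. -/
theorem crosser_eq {G : SimpleGraph V} {u w : V} (huw : u ≠ w) {s s' : Fin 14 → V} {a a' v' : V}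
    (h : InW G.Adj s u ∧ InW G.Adj s w ∧ InW G.Adj s a) (hne : a ≠ u ∧ a ≠ w)
    (h' : InW G.Adj s' u ∧ InW G.Adj s' w ∧ InW G.Adj s' a') (hne' : a' ≠ u ∧ a' ≠ w)
    (hadj : G.Adj v' u ∧ G.Adj v' w ∧ G.Adj v' a') (hav : G.Adj v' a) : ¬ FarW G s s' := by
  have hinj : ∀ {x y z : V}, x ≠ y → z ≠ x → z ≠ y → Injective ![x, y, z] := by
    intro x y z h1 h2 h3 i j hij
    fin_cases i <;> fin_cases j
    · rfl
    · exact absurd hij h1
    · exact absurd (Eq.symm hij) h2
    · exact absurd (Eq.symm hij) h1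
    · rfl
    · exact absurd (Eq.symm hij) h3
    · exact absurd hij h2
    · exact absurd hij h3
    · rfl
  have h1 : InW G.Adj s v' := by
    refine InW.nbr (a := ![u, w, a]) (hinj huw hne.1 hne.2) ?_
    intro l
    fin_cases l
    · exact ⟨h.1, hadj.1⟩
    · exact ⟨h.2.1, hadj.2.1⟩
    · exact ⟨h.2.2, hav⟩
  have h2 : InW G.Adj s' v' := by
    refine InW.nbr (a := ![u, w, a']) (hinj huw hne'.1 hne'.2) ?_
    intro l
    fin_cases l
    · exact ⟨h'.1, hadj.1⟩
    · exact ⟨h'.2.1, hadj.2.1⟩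
    · exact ⟨h'.2.2, hadj.2.2⟩
  refine fun hfar => hfar ⟨![u, w, v'], hinj huw hadj.1.ne hadj.2.1.ne, ?_⟩
  intro l
  fin_cases l
  · exact ⟨h.1, h'.1⟩
  · exact ⟨h.2.1, h'.2.1⟩
  · exact ⟨h1, h2⟩

/-- At most `k` different clusters through `u` and `w` have a vertex in `A` and a neighbour of
these three vertices outside `A`. -/
theorem crosser_le {V : Type} (G : SimpleGraph V) (k : ℕ) (A : Finset V) (hA : Mim G k A)
    (u w : V) (huw : u ≠ w) (m : ℕ) (s : Fin m → Fin 14 → V) (a v : Fin m → V)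
    (hside : ∀ i, a i ∈ A ∧ v i ∉ A)
    (h : ∀ i, InW G.Adj (s i) u ∧ InW G.Adj (s i) w ∧ InW G.Adj (s i) (a i))
    (hne : ∀ i, a i ≠ u ∧ a i ≠ w)
    (hadj : ∀ i, G.Adj (v i) u ∧ G.Adj (v i) w ∧ G.Adj (v i) (a i))
    (hd : ∀ i j, i ≠ j → FarW G (s i) (s j)) : m ≤ k := by
  refine hA m a v hside fun i j => ?_
  constructor
  · intro hij
    by_contra hne'
    exact crosser_eq huw (h i) (hne i) (h j) (hne j) (hadj j) hij.symm (hd i j hne')
  · rintro rfl
    exact (hadj i).2.2.symm

/-- The same with the sides exchanged. -/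
theorem crosser_le' {V : Type} (G : SimpleGraph V) (k : ℕ) (A : Finset V) (hA : Mim G k A)
    (u w : V) (huw : u ≠ w) (m : ℕ) (s : Fin m → Fin 14 → V) (a v : Fin m → V)
    (hside : ∀ i, a i ∉ A ∧ v i ∈ A)
    (h : ∀ i, InW G.Adj (s i) u ∧ InW G.Adj (s i) w ∧ InW G.Adj (s i) (a i))
    (hne : ∀ i, a i ≠ u ∧ a i ≠ w)
    (hadj : ∀ i, G.Adj (v i) u ∧ G.Adj (v i) w ∧ G.Adj (v i) (a i))
    (hd : ∀ i j, i ≠ j → FarW G (s i) (s j)) : m ≤ k := by
  refine hA m v a (fun i => ⟨(hside i).2, (hside i).1⟩) fun i j => ?_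
  constructor
  · intro hij
    by_contra hne'
    exact crosser_eq huw (h j) (hne j) (h i) (hne i) (hadj i) hij (hd j i (Ne.symm hne'))
  · rintro rfl
    exact (hadj i).2.2

/-- Representatives of the clusters with a given property. -/
theorem exists_reps (G : SimpleGraph V) (B : (Fin 14 → V) → Prop) (K : ℕ)
    (hB : ∀ (m : ℕ) (s : Fin m → Fin 14 → V), (∀ i, B (s i)) →
      (∀ i j, i ≠ j → FarW G (s i) (s j)) → m ≤ K) :
    ∃ T : Finset (Fin 14 → V), T.card ≤ K ∧ (∀ t ∈ T, B t) ∧
      ∀ s, B s → ∃ t ∈ T, ¬ FarW G t s := by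
  classical
  let Q : ℕ → Prop := fun m => ∃ s : Fin m → Fin 14 → V, (∀ i, B (s i)) ∧
    ∀ i j, i ≠ j → FarW G (s i) (s j)
  have hQ0 : Q 0 := ⟨fun i => i.elim0, fun i => i.elim0, fun i => i.elim0⟩
  have hmax : ∃ m, Q m ∧ ¬ Q (m + 1) := by
    by_contra hcon
    push Not at hcon
    have hall : ∀ m, Q m := fun m => by
      induction m with
      | zero => exact hQ0
      | succ m ih => exact hcon m ih
    obtain ⟨s, h1, h2⟩ := hall (K + 1)
    have := hB (K + 1) s h1 h2
    omega
  obtain ⟨m, ⟨s, h1, h2⟩, hm⟩ := hmax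
  refine ⟨Finset.univ.image s, ?_, ?_, ?_⟩
  · refine Finset.card_image_le.trans ?_
    rw [Finset.card_univ, Fintype.card_fin]
    exact hB m s h1 h2
  · intro t ht
    obtain ⟨i, -, rfl⟩ := Finset.mem_image.1 ht
    exact h1 i
  · intro t ht
    by_contra hcon
    push Not at hcon
    have hfar : ∀ i, FarW G (s i) t := fun i =>
      hcon (s i) (Finset.mem_image_of_mem s (Finset.mem_univ i))
    refine hm ⟨Fin.snoc (α := fun _ => Fin 14 → V) s t, fun i => ?_, fun i j hij => ?_⟩
    · induction i using Fin.lastCases with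
      | last => rwa [Fin.snoc_last]
      | cast i => rw [Fin.snoc_castSucc]; exact h1 i
    · induction i using Fin.lastCases with
      | last =>
        induction j using Fin.lastCases with
        | last => exact absurd rfl hij
        | cast j =>
          rw [Fin.snoc_last, Fin.snoc_castSucc]
          exact (hfar j).symm
      | cast i =>
        induction j using Fin.lastCases with
        | last =>
          rw [Fin.snoc_last, Fin.snoc_castSucc]
          exact hfar i
        | cast j =>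
          rw [Fin.snoc_castSucc, Fin.snoc_castSucc]
          exact h2 i j fun h => hij (congrArg _ h)

end Pool.Agent.Lib.MP_37c7bf_co_MW

end MainBoundPart

section RamseyPart

/-! # Matchings across a cut outside the main clusters are small -/

set_option autoImplicit false

namespace Pool.Agent.Lib.MP_37c7bf_co_MW

open Function

/-! ### A Ramsey argument -/

/-- From a set of `3 ^ m` elements one can choose a sequence of length `m` such that the colour
of a pair depends only on its first element. -/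
theorem exists_endHom {α : Type} [DecidableEq α] (c : α → α → Fin 3) (m : ℕ) :
    ∀ S : Finset α, 3 ^ m ≤ S.card → ∃ (x : Fin m → α) (d : Fin m → Fin 3), Injective x ∧
      (∀ i, x i ∈ S) ∧ ∀ i j, i < j → c (x i) (x j) = d i := by
  induction m with
  | zero => exact fun S _ => ⟨Fin.elim0, Fin.elim0, fun i => i.elim0, fun i => i.elim0,
      fun i => i.elim0⟩
  | succ m ih =>
    intro S hS
    have hne : S.Nonempty := by
      rw [← Finset.card_pos]
      exact lt_of_lt_of_le (by positivity) hS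
    obtain ⟨z, hz⟩ := hne
    -- a colour class of size at least 3 ^ m
    obtain ⟨d0, hd0⟩ : ∃ d0 : Fin 3, 3 ^ m ≤ ((S.erase z).filter fun y => c z y = d0).card := by
      by_contra hcon
      push Not at hcon
      have h1 : (S.erase z).card = ∑ d0 : Fin 3, ((S.erase z).filter fun y => c z y = d0).card :=
        Finset.card_eq_sum_card_fiberwise fun y _ => Finset.mem_coe.2 (Finset.mem_univ _)
      have h2 : (S.erase z).card = S.card - 1 := Finset.card_erase_of_mem hz
      have h3 : ∑ d0 : Fin 3, ((S.erase z).filter fun y => c z y = d0).card ≤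
          ∑ _d0 : Fin 3, (3 ^ m - 1) :=
        Finset.sum_le_sum fun d _ => Nat.le_sub_one_of_lt (hcon d)
      rw [Finset.sum_const, Finset.card_univ, Fintype.card_fin, smul_eq_mul] at h3
      have h4 : 0 < 3 ^ m := by positivity
      rw [pow_succ] at hS
      omega
    obtain ⟨x, d, hx, hxS, hxd⟩ := ih _ hd0
    have hxS' : ∀ i, x i ≠ z ∧ x i ∈ S ∧ c z (x i) = d0 := fun i => by
      have := hxS i
      simp only [Finset.mem_filter, Finset.mem_erase] at this
      exact ⟨this.1.1, this.1.2, this.2⟩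
    refine ⟨Fin.cons z x, Fin.cons d0 d, ?_, ?_, ?_⟩
    · rw [Fin.cons_injective_iff]
      exact ⟨fun ⟨i, hi⟩ => (hxS' i).1 hi, hx⟩
    · intro i
      refine Fin.cases ?_ (fun i => ?_) i
      · exact hz
      · exact (hxS' i).2.1
    · intro i j
      refine Fin.cases ?_ (fun i => ?_) i
      · refine Fin.cases ?_ (fun j => ?_) j
        · intro h; exact absurd h (lt_irrefl _)
        · intro _
          exact (hxS' j).2.2
      · refine Fin.cases ?_ (fun j => ?_) j
        · intro h; exact absurd h (by simp)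
        · intro h
          simp only [Fin.cons_succ]
          exact hxd i j (Fin.succ_lt_succ_iff.1 h)

/-- **Ramsey's theorem** for ordered pairs and three colours. -/
theorem exists_hom (N : ℕ) {n : ℕ} (hn : 3 ^ (3 * N) ≤ n) (c : Fin n → Fin n → Fin 3) :
    ∃ (x : Fin N → Fin n) (d : Fin 3), Injective x ∧ ∀ i j, i < j → c (x i) (x j) = d := by
  obtain ⟨x, d, hx, -, hxd⟩ := exists_endHom c (3 * N) Finset.univ (by
    rw [Finset.card_univ, Fintype.card_fin]; exact hn)
  obtain ⟨e, he⟩ : ∃ e : Fin 3, N ≤ (Finset.univ.filter fun i => d i = e).card := by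
    by_contra hcon
    push Not at hcon
    have h1 : (Finset.univ : Finset (Fin (3 * N))).card =
        ∑ e : Fin 3, (Finset.univ.filter fun i => d i = e).card :=
      Finset.card_eq_sum_card_fiberwise fun y _ => Finset.mem_coe.2 (Finset.mem_univ _)
    rw [Finset.card_univ, Fintype.card_fin] at h1
    have h3 := Fin.sum_univ_three fun e : Fin 3 => (Finset.univ.filter fun i => d i = e).card
    have := hcon 0
    have := hcon 1
    have := hcon 2
    omega
  obtain ⟨T, hT, hTN⟩ := Finset.exists_subset_card_eq he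
  refine ⟨fun i => x (T.orderEmbOfFin hTN i), e, hx.comp (T.orderEmbOfFin hTN).injective, ?_⟩
  intro i j hij
  have h1 : (T.orderEmbOfFin hTN i) < (T.orderEmbOfFin hTN j) :=
    (T.orderEmbOfFin hTN).strictMono hij
  rw [hxd _ _ h1]
  exact (Finset.mem_filter.1 (hT (T.orderEmbOfFin_mem hTN i))).2

/-! ### Complete bipartite graphs across the cut -/

section

variable {V : Type} {G : SimpleGraph V}

/-- A large complete bipartite graph lies in one cluster. -/
theorem exists_cluster {t : ℕ} (ht : 14 ≤ t) (p q : Fin t → V) (hp : Injective p)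
    (hq : Injective q) (hpq : ∀ i j, G.Adj (p i) (q j)) :
    ∃ s, (∀ i, InW G.Adj s (p i)) ∧ ∀ i, InW G.Adj s (q i) := by
  let f : Fin 14 → Fin t := Fin.castLE ht
  have hf : Injective f := Fin.castLE_injective ht
  let s : Fin 14 → V := fun i => if (i : ℕ) < 10 then p (f i) else q (f i)
  have hne : ∀ i j, p i ≠ q j := fun i j h => (hpq i j).ne h
  have hs : Pool.Agent.Lib.MP_37c7bf_co_CW.SeedR G.Adj s := by
    refine ⟨?_, ?_⟩
    · intro i j hij
      simp only [s] at hij
      split_ifs at hij with h1 h2 h2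
      · exact hf (hp hij)
      · exact absurd hij (hne _ _)
      · exact absurd hij.symm (hne _ _)
      · exact hf (hq hij)
    · intro i j hi hj
      simp only [s, if_pos hi, if_neg (not_lt.2 hj)]
      exact hpq _ _
  have h1 : ∀ i : Fin 3, InW G.Adj s (p (f (i.castLE (by norm_num)))) := by
    intro i
    have := inW_seed hs (i.castLE (by norm_num : 3 ≤ 14))
    have h : ((i.castLE (by norm_num : 3 ≤ 14) : Fin 14) : ℕ) < 10 := by
      simp; omega
    simpa only [s, if_pos h] using this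
  have h2 : ∀ i : Fin 3, InW G.Adj s (q (f ((i.natAdd 11).cast (by norm_num)))) := by
    intro i
    have := inW_seed hs ((i.natAdd 11).cast (by norm_num : 11 + 3 = 14))
    have h : ¬ (((i.natAdd 11).cast (by norm_num : 11 + 3 = 14) : Fin 14) : ℕ) < 10 := by
      simp; omega
    simpa only [s, if_neg h] using this
  refine ⟨s, fun i => ?_, fun i => ?_⟩
  · refine InW.nbr (a := fun l : Fin 3 => q (f ((l.natAdd 11).cast (by norm_num))))
      ?_ fun l => ⟨h2 l, hpq _ _⟩
    exact hq.comp (hf.comp ((Fin.cast_injective _).comp (Fin.natAdd_injective _ _)))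
  · refine InW.nbr (a := fun l : Fin 3 => p (f (l.castLE (by norm_num))))
      ?_ fun l => ⟨h1 l, (hpq _ _).symm⟩
    exact hp.comp (hf.comp (Fin.castLE_injective _))

/-- A half graph across the cut leads to a main cluster. -/
theorem half_graph {k t : ℕ} (ht : t = 4 * k + 14) {A : Finset V} (a b : Fin (3 * t) → V)
    (ha : Injective a) (hb : Injective b) (hab : ∀ i, a i ∈ A ∧ b i ∉ A ∧ G.Adj (a i) (b i))
    (h : (∀ i j, i < j → G.Adj (a i) (b j)) ∨ ∀ i j, i < j → G.Adj (a j) (b i)) :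
    ∃ i s, Main G k A s ∧ InW G.Adj s (a i) ∧ InW G.Adj s (b i) := by
  classical
  -- the two parts
  obtain ⟨lo, hi, hlo, hhi, hm⟩ : ∃ lo hi : Fin t → Fin (3 * t), Injective lo ∧ Injective hi ∧
      ∀ i, lo i < ⟨t, by omega⟩ ∧ (⟨t, by omega⟩ : Fin (3 * t)) < hi i := by
    refine ⟨fun i => ⟨i, by omega⟩, fun i => ⟨2 * t + i, by omega⟩, ?_, ?_, ?_⟩
    · intro i j hij
      simpa [Fin.ext_iff] using hij
    · intro i j hij
      simpa [Fin.ext_iff] using hij
    · intro i
      refine ⟨?_, ?_⟩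
      · rw [Fin.lt_def]; exact i.2
      · rw [Fin.lt_def]; simp only; omega
  have hlh : ∀ i j, lo i < hi j := fun i j => (hm i).1.trans (hm j).2
  obtain ⟨p, q, hp, hq, hpA, hqA, hpq, hpm, hqm⟩ : ∃ p q : Fin t → V, Injective p ∧ Injective q ∧
      (∀ i, p i ∈ A) ∧ (∀ i, q i ∉ A) ∧ (∀ i j, G.Adj (p i) (q j)) ∧
      (∀ i, G.Adj (b ⟨t, by omega⟩) (p i)) ∧ ∀ i, G.Adj (a ⟨t, by omega⟩) (q i) := by
    rcases h with h | h
    · exact ⟨a ∘ lo, b ∘ hi, ha.comp hlo, hb.comp hhi, fun i => (hab _).1, fun i => (hab _).2.1,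
        fun i j => h _ _ (hlh i j), fun i => (h _ _ (hm i).1).symm, fun i => h _ _ (hm i).2⟩
    · exact ⟨a ∘ hi, b ∘ lo, ha.comp hhi, hb.comp hlo, fun i => (hab _).1, fun i => (hab _).2.1,
        fun i j => h _ _ (hlh j i), fun i => (h _ _ (hm i).2).symm, fun i => h _ _ (hm i).1⟩
  obtain ⟨s, hsp, hsq⟩ := exists_cluster (by omega) p q hp hq hpq
  have hthree : ∀ f : Fin t → V, Injective f → Injective fun l : Fin 3 => f (l.castLE (by omega)) :=
    fun f hf => hf.comp (Fin.castLE_injective _)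
  refine ⟨⟨t, by omega⟩, s, ⟨Finset.univ.image p, Finset.univ.image q, ?_, ?_, ?_, ?_, ?_⟩,
    InW.nbr (hthree q hq) fun l => ⟨hsq _, hqm _⟩, InW.nbr (hthree p hp) fun l => ⟨hsp _, hpm _⟩⟩
  · rw [Finset.card_image_of_injective _ hp, Finset.card_univ, Fintype.card_fin, ht]
  · rw [Finset.card_image_of_injective _ hq, Finset.card_univ, Fintype.card_fin, ht]
  · intro x hx
    obtain ⟨i, -, rfl⟩ := Finset.mem_image.1 hx
    exact ⟨hpA i, hsp i⟩
  · intro x hx
    obtain ⟨i, -, rfl⟩ := Finset.mem_image.1 hx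
    exact ⟨hqA i, hsq i⟩
  · intro x hx y hy
    obtain ⟨i, -, rfl⟩ := Finset.mem_image.1 hx
    obtain ⟨j, -, rfl⟩ := Finset.mem_image.1 hy
    exact hpq i j

/-- **Matchings across the cut outside the main clusters are small.** -/
theorem matching_bound (G : SimpleGraph V) (k : ℕ) (A : Finset V) (hA : Mim G k A)
    (a b : Fin (ramW k) → V) (ha : Injective a) (hb : Injective b)
    (hab : ∀ i, a i ∈ A ∧ b i ∉ A ∧ G.Adj (a i) (b i))
    (hno : ∀ i, ¬ ∃ s, Main G k A s ∧ InW G.Adj s (a i) ∧ InW G.Adj s (b i)) : False := by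
  classical
  let c : Fin (ramW k) → Fin (ramW k) → Fin 3 := fun x y =>
    if G.Adj (a x) (b y) then 1 else if G.Adj (a y) (b x) then 2 else 0
  have hram : 3 ^ (3 * (3 * (4 * k + 14))) ≤ ramW k := by
    unfold ramW
    exact Nat.pow_le_pow_right (by norm_num) (by omega)
  obtain ⟨x, d, hx, hxd⟩ := exists_hom (3 * (4 * k + 14)) hram c
  have hab' : ∀ i, a (x i) ∈ A ∧ b (x i) ∉ A ∧ G.Adj (a (x i)) (b (x i)) := fun i => hab _
  have key : ¬ ((∀ i j, i < j → G.Adj (a (x i)) (b (x j))) ∨
      ∀ i j, i < j → G.Adj (a (x j)) (b (x i))) := by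
    intro h
    obtain ⟨i, s, h1, h2, h3⟩ := half_graph (k := k) rfl (fun i => a (x i)) (fun i => b (x i))
      (ha.comp hx) (hb.comp hx) hab' h
    exact hno _ ⟨s, h1, h2, h3⟩
  have hc1 : ∀ i j, c i j = 1 → G.Adj (a i) (b j) := by
    intro i j h
    by_contra hcon
    simp only [c, if_neg hcon] at h
    split_ifs at h
    · exact absurd h (by decide)
    · exact absurd h (by decide)
  have hc2 : ∀ i j, c i j = 2 → G.Adj (a j) (b i) := by
    intro i j h
    by_contra hcon
    simp only [c, if_neg hcon] at h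
    split_ifs at h
    · exact absurd h (by decide)
    · exact absurd h (by decide)
  have hc0 : ∀ i j, c i j = 0 → ¬ G.Adj (a i) (b j) ∧ ¬ G.Adj (a j) (b i) := by
    intro i j h
    simp only [c] at h
    split_ifs at h with h1 h2
    · exact absurd h (by decide)
    · exact absurd h (by decide)
    · exact ⟨h1, h2⟩
  have hd : ∀ d : Fin 3, d = 0 ∨ d = 1 ∨ d = 2 := by decide
  obtain rfl | rfl | rfl := hd d
  · have := hA (3 * (4 * k + 14)) (fun i => a (x i)) (fun i => b (x i))
      (fun i => ⟨(hab' i).1, (hab' i).2.1⟩) (by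
        intro i j
        constructor
        · intro h
          by_contra hij
          rcases lt_or_gt_of_ne hij with h1 | h1
          · exact (hc0 _ _ (hxd _ _ h1)).1 h
          · exact (hc0 _ _ (hxd _ _ h1)).2 h
        · rintro rfl
          exact (hab' i).2.2)
    omega
  · exact key (Or.inl fun i j hij => hc1 _ _ (hxd i j hij))
  · exact key (Or.inr fun i j hij => hc2 _ _ (hxd i j hij))

end

end Pool.Agent.Lib.MP_37c7bf_co_MW

end RamseyPart

section CutCoverPart

/-!
# The cuts of the sparse graph of a graph of bounded mim-width are covered by few vertices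

If the induced matchings across the cut `A` have at most `k` edges, then at most `bndW k` vertices
cover all edges of `HW G` between `A` and its complement.
-/

set_option autoImplicit false

namespace Pool.Agent.Lib.MP_37c7bf_co_MW

open Function Pool.Agent.Lib.MP_37c7bf_co_CW
open Pool.Agent.Lib.MP_37c7bf_co_CW.CutCover

namespace CutCoverW

/-! ### Clusters as finite sets -/

section

variable {V : Type} [Fintype V]

open Classical in
/-- The cluster of `s`. -/
noncomputable def cluW (A : V → V → Prop) (s : Fin 14 → V) : Finset V :=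
  Finset.univ.filter (InW A s)

theorem mem_cluW {A : V → V → Prop} {s : Fin 14 → V} {v : V} : v ∈ cluW A s ↔ InW A s v := by
  classical
  simp [cluW]

variable [LinearOrder V]

theorem cluW_eq {A : V → V → Prop} {s t : Fin 14 → V} (h : 3 ≤ (cluW A s ∩ cluW A t).card) :
    cluW A s = cluW A t := by
  obtain ⟨x, hx, hx'⟩ := exists_fun_of_card _ 3 h
  ext v
  rw [mem_cluW, mem_cluW]
  refine InW.merge hx (fun l => ?_) v
  have h1 := hx' l
  rw [Finset.mem_inter, mem_cluW, mem_cluW] at h1
  exact h1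

theorem isBase_iffW {A : V → V → Prop} {s : Fin 14 → V} {v : V} :
    IsBase (InW A) s v ↔ v ∈ low (cluW A s) := by
  classical
  simp only [IsBase, low, Finset.mem_filter, mem_cluW]

/-! ### A cluster without crossing edges and crossers lies on one side -/

theorem card_badW {A : V → V → Prop} {C Sp : Finset V} (hC : (C ∩ Sp).card ≤ 2)
    {s : Fin 14 → V} (hs : SeedR A s) (hsC : cluW A s = C) :
    (Finset.univ.filter fun i => s i ∈ Sp).card ≤ 2 := by
  refine le_trans (Finset.card_le_card_of_injOn s (fun i hi => ?_) hs.1.injOn) hC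
  have hi' := (Finset.mem_filter.1 (Finset.mem_coe.1 hi)).2
  rw [Finset.mem_coe, Finset.mem_inter, ← hsC, mem_cluW]
  exact ⟨inW_seed hs i, hi'⟩

theorem one_sideW (G : SimpleGraph V) {A Sp C : Finset V} (hC : (C ∩ Sp).card ≤ 2)
    (hm : ∀ u v w, u ∈ C → v ∈ C → w ∈ C → u ∉ Sp → v ∉ Sp → w ∉ Sp → G.Adj u v → G.Adj u w →
      ¬ (u ∈ A ↔ v ∈ A) → ¬ (u ∈ A ↔ w ∈ A) → v = w)
    (hcr : ∀ u w a v, u ∈ C → w ∈ C → a ∈ C → u ∈ Sp → w ∈ Sp → u ≠ w → a ∉ Sp → v ∉ Sp →
      G.Adj v u → G.Adj v w → G.Adj v a → ¬ (v ∈ A ↔ a ∈ A) → False)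
    {s : Fin 14 → V} {v : V} (hv : InW G.Adj s v) (hsC : cluW G.Adj s = C) (hvS : v ∉ Sp)
    (j : Fin 14) (hj : s j ∉ Sp) : v ∈ A ↔ s j ∈ A := by
  have hseed : ∀ s : Fin 14 → V, SeedR G.Adj s → cluW G.Adj s = C → ∀ i j : Fin 14, s i ∉ Sp →
      s j ∉ Sp → (s i ∈ A ↔ s j ∈ A) := by
    intro s hs hsC i j hi hj
    have hmem : ∀ i, s i ∈ C := fun i => by
      rw [← hsC, mem_cluW]
      exact inW_seed hs i
    have hB : ∀ i, i ∉ (Finset.univ.filter fun i => s i ∈ Sp) → s i ∉ Sp := fun i hi h =>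
      hi (Finset.mem_filter.2 ⟨Finset.mem_univ i, h⟩)
    refine same_side _ (card_badW hC hs hsC) (fun i => s i ∈ A) ?_ ?_ i j
      (fun h => hi (Finset.mem_filter.1 h).2) (fun h => hj (Finset.mem_filter.1 h).2)
    · intro i j j' h1 h2 h3 h4 h5 h6 h7 h8 h9
      exact h7 (hs.1 (hm (s i) (s j) (s j') (hmem _) (hmem _) (hmem _) (hB _ h4) (hB _ h5)
        (hB _ h6) (hs.2 i j h1 h2) (hs.2 i j' h1 h3) h8 h9))
    · intro i i' j h1 h2 h3 h4 h5 h6 h7 h8 h9
      exact h7 (hs.1 (hm (s j) (s i) (s i') (hmem _) (hmem _) (hmem _) (hB _ h6) (hB _ h4)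
        (hB _ h5) (hs.2 i j h1 h3).symm (hs.2 i' j h2 h3).symm (fun h => h8 h.symm)
        (fun h => h9 h.symm)))
  have key : ∀ s v, InW G.Adj s v → (cluW G.Adj s = C → v ∉ Sp → ∀ j, s j ∉ Sp →
      (v ∈ A ↔ s j ∈ A)) := by
    intro s v hv
    refine InW.ind (A := G.Adj) (R := fun s v => cluW G.Adj s = C → v ∉ Sp → ∀ j, s j ∉ Sp →
      (v ∈ A ↔ s j ∈ A)) ?_ hv
    rintro s v ⟨hs, ⟨i, rfl⟩ | ⟨a, ha, h1⟩ | ⟨t, ⟨x, hx, h1⟩, h2, h3⟩⟩ hsC hvS j hj
    · exact hseed s hs hsC i j hvS hj
    · by_contra hne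
      have hvC : v ∈ C := by
        rw [← hsC, mem_cluW]
        exact InW.nbr ha fun l => ⟨(h1 l).1.1, (h1 l).2⟩
      have haC : ∀ l, a l ∈ C := fun l => by
        rw [← hsC, mem_cluW]
        exact (h1 l).1.1
      have hside : ∀ l, a l ∉ Sp → ¬ (v ∈ A ↔ a l ∈ A) := fun l hl h =>
        hne (h.trans ((h1 l).1.2 hsC hl j hj))
      have hone : ∀ l l', l ≠ l' → a l ∉ Sp → a l' ∉ Sp → False := fun l l' hll hl hl' =>
        hll (ha (hm v (a l) (a l') hvC (haC l) (haC l') hvS hl hl' (h1 l).2 (h1 l').2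
          (hside l hl) (hside l' hl')))
      have hcross : ∀ l1 l2 l3, l1 ≠ l2 → a l1 ∈ Sp → a l2 ∈ Sp → a l3 ∉ Sp → False :=
        fun l1 l2 l3 h12 hl1 hl2 hl3 => hcr (a l1) (a l2) (a l3) v (haC l1) (haC l2) (haC l3)
          hl1 hl2 (fun h => h12 (ha h)) hl3 hvS (h1 l1).2 (h1 l2).2 (h1 l3).2 (hside l3 hl3)
      by_cases h0 : a 0 ∈ Sp
      · by_cases h01 : a 1 ∈ Sp
        · by_cases h02 : a 2 ∈ Sp
          · have := card_le_of_fun (S := C ∩ Sp) ha fun l => Finset.mem_inter.2
              ⟨haC l, by fin_cases l; exacts [h0, h01, h02]⟩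
            omega
          · exact hcross 0 1 2 (by decide) h0 h01 h02
        · by_cases h02 : a 2 ∈ Sp
          · exact hcross 0 2 1 (by decide) h0 h02 h01
          · exact hone 1 2 (by decide) h01 h02
      · by_cases h01 : a 1 ∈ Sp
        · by_cases h02 : a 2 ∈ Sp
          · exact hcross 1 2 0 (by decide) h01 h02 h0
          · exact hone 0 2 (by decide) h0 h02
        · exact hone 0 1 (by decide) h0 h01
    · have htC : cluW G.Adj t = C := by
        rw [← hsC]
        ext w
        rw [mem_cluW, mem_cluW]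
        exact (InW.merge hx (fun l => ⟨(h1 l).1.1, (h1 l).2.1⟩) w).symm
      have hx' : ∃ l, x l ∉ Sp := by
        by_contra hcon
        push Not at hcon
        have := card_le_of_fun (S := C ∩ Sp) hx fun l => Finset.mem_inter.2
          ⟨by rw [← hsC, mem_cluW]; exact (h1 l).1.1, hcon l⟩
        omega
      obtain ⟨l, hl⟩ := hx'
      obtain ⟨y, -, hy⟩ := exists_good (m := 1) _ Finset.univ
        (card_badW hC h2.seed htC) (by decide)
      have hy0 : t (y 0) ∉ Sp := fun h => (hy 0).2 (Finset.mem_filter.2 ⟨Finset.mem_univ _, h⟩)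
      exact ((h3 htC hvS (y 0) hy0).trans ((h1 l).2.2 htC hl (y 0) hy0).symm).trans
        ((h1 l).1.2 hsC hl j hj)
  exact key s v hv hsC hvS j hj

/-! ### Maximal matchings and families of clusters -/

omit [Fintype V] in
/-- A maximal matching: if there is no matching with `N` edges, then at most `2 N` vertices cover
all edges. -/
theorem exists_cover (E : V → V → Prop) (N : ℕ)
    (h : ∀ a b : Fin N → V, Injective a → Injective b → (∀ i, E (a i) (b i)) → False) :
    ∃ S : Finset V, S.card ≤ 2 * N ∧ ∀ x y, E x y → x ∈ S ∨ y ∈ S := by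
  have key : ∀ m : ℕ, (∃ a b : Fin m → V, Injective a ∧ Injective b ∧ ∀ i, E (a i) (b i)) ∨
      ∃ S : Finset V, S.card ≤ 2 * m ∧ ∀ x y, E x y → x ∈ S ∨ y ∈ S := by
    intro m
    induction m with
    | zero =>
      exact Or.inl ⟨fun i => i.elim0, fun i => i.elim0, fun i => i.elim0, fun i => i.elim0,
        fun i => i.elim0⟩
    | succ m ih =>
      rcases ih with ⟨a, b, ha, hb, hE⟩ | ⟨S, hS, hS'⟩
      · by_cases hc : ∀ x y, E x y →
            x ∈ Finset.univ.image a ∪ Finset.univ.image b ∨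
            y ∈ Finset.univ.image a ∪ Finset.univ.image b
        · refine Or.inr ⟨_, ?_, hc⟩
          have h1 := Finset.card_union_le (Finset.univ.image a) (Finset.univ.image b)
          have h2 := Finset.card_image_le (s := (Finset.univ : Finset (Fin m))) (f := a)
          have h3 := Finset.card_image_le (s := (Finset.univ : Finset (Fin m))) (f := b)
          simp only [Finset.card_univ, Fintype.card_fin] at h2 h3
          omega
        · push Not at hc
          obtain ⟨x, y, hxy, hx, hy⟩ := hc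
          simp only [Finset.mem_union, Finset.mem_image, Finset.mem_univ, true_and, not_or,
            not_exists] at hx hy
          refine Or.inl ⟨Fin.cons x a, Fin.cons y b, ?_, ?_, ?_⟩
          · refine Fin.cons_injective_iff.2 ⟨?_, ha⟩
            rintro ⟨i, hi⟩
            exact hx.1 i hi
          · refine Fin.cons_injective_iff.2 ⟨?_, hb⟩
            rintro ⟨i, hi⟩
            exact hy.2 i hi
          · intro i
            refine Fin.cases ?_ (fun i => ?_) i
            · simpa using hxy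
            · simpa using hE i
      · exact Or.inr ⟨S, by omega, hS'⟩
  rcases key N with ⟨a, b, ha, hb, hE⟩ | hS
  · exact absurd (h a b ha hb hE) id
  · exact hS

/-- If pairwise different clusters with a property are at most `k` in number, they form a set with
at most `k` elements. -/
theorem exists_family (A : V → V → Prop) (Pr : (Fin 14 → V) → Prop) (k : ℕ)
    (h : ∀ (m : ℕ) (s : Fin m → Fin 14 → V), (∀ i, Pr (s i)) →
      (∀ i j, i ≠ j → cluW A (s i) ≠ cluW A (s j)) → m ≤ k) :
    ∃ F : Finset (Finset V), F.card ≤ k ∧ (∀ s, Pr s → cluW A s ∈ F) ∧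
      ∀ D ∈ F, ∃ s, Pr s ∧ D = cluW A s := by
  classical
  refine ⟨(Finset.univ.filter Pr).image (cluW A), ?_, fun s hs => ?_, fun D hD => ?_⟩
  · have hpre : ∀ D : {D // D ∈ (Finset.univ.filter Pr).image (cluW A)},
        ∃ s, Pr s ∧ cluW A s = D := by
      rintro ⟨D, hD⟩
      obtain ⟨s, hs, hsD⟩ := Finset.mem_image.1 hD
      exact ⟨s, (Finset.mem_filter.1 hs).2, hsD⟩
    choose f hf hf' using hpre
    refine h _ (fun i => f (((Finset.univ.filter Pr).image (cluW A)).equivFin.symm i))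
      (fun i => hf _) (fun i j hij he => hij ?_)
    rw [hf', hf'] at he
    exact ((Finset.univ.filter Pr).image (cluW A)).equivFin.symm.injective (Subtype.ext he)
  · exact Finset.mem_image_of_mem _ (Finset.mem_filter.2 ⟨Finset.mem_univ _, hs⟩)
  · obtain ⟨s, hs, hsD⟩ := Finset.mem_image.1 hD
    exact ⟨s, (Finset.mem_filter.1 hs).2, hsD.symm⟩

end

/-- The cluster of `s` has the vertices `u`, `w` and a further vertex `a` on the side `σ` of the
cut, and a vertex `v` on the other side is adjacent to `u`, `w` and `a`. -/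
def Crosser {V : Type} (G : SimpleGraph V) (A : Finset V) (σ : Bool) (u w : V)
    (s : Fin 14 → V) : Prop :=
  InW G.Adj s u ∧ InW G.Adj s w ∧ ∃ a v : V, InW G.Adj s a ∧ a ≠ u ∧ a ≠ w ∧ G.Adj v u ∧
    G.Adj v w ∧ G.Adj v a ∧ (a ∈ A ↔ σ = true) ∧ (v ∈ A ↔ σ = false)

/-- The covering of the cut, for arbitrary bounds on the number of main clusters and crossers. -/
theorem covered_aux {V : Type} [Fintype V] [LinearOrder V] (G : SimpleGraph V) (k : ℕ)
    (A : Finset V)
    (hW1 : ∀ a b : Fin (ramW k) → V, Injective a → Injective b → (∀ i, a i ∈ A ∧ b i ∉ A ∧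
      G.Adj (a i) (b i) ∧ ¬ ∃ s, Main G k A s ∧ InW G.Adj s (a i) ∧ InW G.Adj s (b i)) → False)
    (hmain : ∀ (m : ℕ) (s : Fin m → Fin 14 → V), (∀ i, Main G k A (s i)) →
      (∀ i j, i ≠ j → cluW G.Adj (s i) ≠ cluW G.Adj (s j)) → m ≤ k)
    (hcross : ∀ σ u w, u ≠ w → ∀ (m : ℕ) (s : Fin m → Fin 14 → V),
      (∀ i, Crosser G A σ u w (s i)) →
      (∀ i j, i ≠ j → cluW G.Adj (s i) ≠ cluW G.Adj (s j)) → m ≤ k) :
    Covered (HW G) (bndW k) A := by
  classical
  obtain ⟨S, hSc, hS⟩ := exists_cover (fun x y => x ∈ A ∧ y ∉ A ∧ G.Adj x y ∧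
    ¬ ∃ s, Main G k A s ∧ InW G.Adj s x ∧ InW G.Adj s y) (ramW k) hW1
  obtain ⟨MC, hMCc, hMC, hMC'⟩ := exists_family G.Adj (Main G k A) k hmain
  have hCR : ∀ σ u w, ∃ F : Finset (Finset V), F.card ≤ k ∧
      (u ≠ w → ∀ s, Crosser G A σ u w s → cluW G.Adj s ∈ F) := by
    intro σ u w
    by_cases huw : u = w
    · exact ⟨∅, by simp, fun h => absurd huw h⟩
    · obtain ⟨F, h1, h2, -⟩ := exists_family G.Adj (Crosser G A σ u w) k (hcross σ u w huw)
      exact ⟨F, h1, fun _ => h2⟩
  choose CR hCRc hCR using hCR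
  -- the vertices in two different main clusters
  obtain ⟨Z, hZc, hZ⟩ : ∃ Z : Finset V, Z.card ≤ 2 * k ^ 2 ∧ ∀ D ∈ MC, ∀ D' ∈ MC, D ≠ D' →
      D ∩ D' ⊆ Z := by
    refine ⟨(MC ×ˢ MC).biUnion fun p => if p.1 ≠ p.2 then p.1 ∩ p.2 else ∅, ?_, ?_⟩
    · have h1 : MC.card * MC.card ≤ k * k := Nat.mul_le_mul hMCc hMCc
      refine (Finset.card_biUnion_le_card_mul _ _ 2 fun p hp => ?_).trans ?_
      · split_ifs with h
        · obtain ⟨hp1, hp2⟩ := Finset.mem_product.1 hp
          obtain ⟨s, -, hs⟩ := hMC' _ hp1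
          obtain ⟨t, -, ht⟩ := hMC' _ hp2
          by_contra hcard
          refine h ?_
          rw [hs, ht] at hcard ⊢
          exact cluW_eq (by omega)
        · simp
      · rw [Finset.card_product]
        calc MC.card * MC.card * 2 ≤ k * k * 2 := Nat.mul_le_mul_right 2 h1
          _ = 2 * k ^ 2 := by ring
    · intro D hD D' hD' hne v hv
      refine Finset.mem_biUnion.2 ⟨(D, D'), Finset.mem_product.2 ⟨hD, hD'⟩, ?_⟩
      simp only [if_pos hne]
      exact hv
  obtain ⟨Sp, hSpc, hSpS, hSpZ⟩ : ∃ Sp : Finset V, Sp.card ≤ sepW k ∧ S ⊆ Sp ∧ Z ⊆ Sp :=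
    ⟨S ∪ Z, (Finset.card_union_le _ _).trans (Nat.add_le_add hSc hZc),
      Finset.subset_union_left, Finset.subset_union_right⟩
  -- the bases of the clusters with three vertices in `Sp`
  have hF : ∀ τ : Fin 3 → V, ∃ L : Finset V, L.card ≤ 3 ∧ ∀ s, Injective τ →
      (∀ l, InW G.Adj s (τ l)) → L = low (cluW G.Adj s) := by
    intro τ
    by_cases h : ∃ s, Injective τ ∧ ∀ l, InW G.Adj s (τ l)
    · obtain ⟨s, h1, h2⟩ := h
      refine ⟨low (cluW G.Adj s), card_low _, fun t _ h3 => ?_⟩
      rw [cluW_eq (card_le_of_fun h1 fun l => Finset.mem_inter.2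
        ⟨mem_cluW.2 (h2 l), mem_cluW.2 (h3 l)⟩)]
    · exact ⟨∅, by simp, fun s h1 h2 => absurd ⟨s, h1, h2⟩ h⟩
  choose F hF3 hF using hF
  refine ⟨Sp ∪ MC.biUnion low ∪ (Fintype.piFinset fun _ : Fin 3 => Sp).biUnion F ∪
    (Sp ×ˢ Sp).biUnion fun p => (CR true p.1 p.2).biUnion low ∪
      (CR false p.1 p.2).biUnion low, ?_, ?_⟩
  · have h1 : (MC.biUnion low).card ≤ k * 3 :=
      (Finset.card_biUnion_le_card_mul _ _ 3 fun D _ => card_low D).trans
        (Nat.mul_le_mul_right 3 hMCc)
    have h2 : ((Fintype.piFinset fun _ : Fin 3 => Sp).biUnion F).card ≤ Sp.card ^ 3 * 3 := by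
      refine (Finset.card_biUnion_le_card_mul _ _ 3 fun i _ => hF3 i).trans (le_of_eq ?_)
      rw [Fintype.card_piFinset]
      simp only [Finset.prod_const, Finset.card_univ, Fintype.card_fin]
    have h3 : Sp.card ^ 3 ≤ sepW k ^ 3 := Nat.pow_le_pow_left hSpc 3
    have h4 : ((Sp ×ˢ Sp).biUnion fun p => (CR true p.1 p.2).biUnion low ∪
        (CR false p.1 p.2).biUnion low).card ≤ Sp.card * Sp.card * (k * 3 + k * 3) := by
      rw [← Finset.card_product]
      refine Finset.card_biUnion_le_card_mul _ _ _ fun p _ =>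
        (Finset.card_union_le _ _).trans (Nat.add_le_add ?_ ?_)
      · exact (Finset.card_biUnion_le_card_mul _ _ 3 fun D _ => card_low D).trans
          (Nat.mul_le_mul_right 3 (hCRc _ _ _))
      · exact (Finset.card_biUnion_le_card_mul _ _ 3 fun D _ => card_low D).trans
          (Nat.mul_le_mul_right 3 (hCRc _ _ _))
    have h5 : Sp.card * Sp.card * (k * 3 + k * 3) ≤ sepW k * sepW k * (k * 3 + k * 3) :=
      Nat.mul_le_mul_right _ (Nat.mul_le_mul hSpc hSpc)
    have h6 := Finset.card_union_le (Sp ∪ MC.biUnion low ∪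
      (Fintype.piFinset fun _ : Fin 3 => Sp).biUnion F)
      ((Sp ×ˢ Sp).biUnion fun p => (CR true p.1 p.2).biUnion low ∪
      (CR false p.1 p.2).biUnion low)
    have h7 := Finset.card_union_le (Sp ∪ MC.biUnion low)
      ((Fintype.piFinset fun _ : Fin 3 => Sp).biUnion F)
    have h8 := Finset.card_union_le Sp (MC.biUnion low)
    have h9 : bndW k = sepW k + k * 3 + sepW k ^ 3 * 3 +
        sepW k * sepW k * (k * 3 + k * 3) := by
      rw [bndW]
      ring
    rw [h9]
    omega
  intro x hxA y hyA hadj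
  by_contra hcon
  rw [not_or] at hcon
  obtain ⟨hxX, hyX⟩ := hcon
  have hmemX : ∀ z, z ∉ Sp ∪ MC.biUnion low ∪ (Fintype.piFinset fun _ : Fin 3 => Sp).biUnion F ∪
      ((Sp ×ˢ Sp).biUnion fun p => (CR true p.1 p.2).biUnion low ∪
        (CR false p.1 p.2).biUnion low) → z ∉ Sp ∧ (∀ D ∈ MC, z ∉ low D) ∧
      (∀ τ : Fin 3 → V, (∀ l, τ l ∈ Sp) → z ∉ F τ) ∧
      (∀ σ, ∀ u ∈ Sp, ∀ w ∈ Sp, ∀ D ∈ CR σ u w, z ∉ low D) := by
    intro z hz
    simp only [Finset.mem_union, Finset.mem_biUnion, not_or, not_exists,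
      Fintype.mem_piFinset, not_and, Finset.mem_product, Prod.forall] at hz
    obtain ⟨⟨⟨h1, h2⟩, h3⟩, h4⟩ := hz
    refine ⟨h1, fun D hD => h2 D hD, h3, fun σ u hu w hw D hD => ?_⟩
    cases σ
    · exact (h4 u w ⟨hu, hw⟩).2 D hD
    · exact (h4 u w ⟨hu, hw⟩).1 D hD
  obtain ⟨hxS, hxlow, hxF, hxC⟩ := hmemX x hxX
  obtain ⟨hyS, hylow, hyF, hyC⟩ := hmemX y hyX
  -- crossing edges outside `Sp` lie in main clusters
  have hbig : ∀ a b, a ∈ A → b ∉ A → G.Adj a b → a ∉ Sp → b ∉ Sp →
      ∃ s, Main G k A s ∧ InW G.Adj s a ∧ InW G.Adj s b := by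
    intro a b ha hb hab haS hbS
    by_contra h
    rcases hS a b ⟨ha, hb, hab, h⟩ with h' | h'
    · exact haS (hSpS h')
    · exact hbS (hSpS h')
  obtain ⟨hxy, ⟨h1, h2⟩ | ⟨s, hx1, hy1, hbase⟩⟩ := hadj
  · obtain ⟨s, -, ha, hb⟩ := hbig x y hxA hyA h1 hxS hyS
    exact h2 ⟨s, ha, hb⟩
  rw [isBase_iffW, isBase_iffW] at hbase
  have hne : ∀ D ∈ MC, D ≠ cluW G.Adj s := by
    intro D hD h
    rcases hbase with h' | h'
    · exact hxlow D hD (h ▸ h')
    · exact hylow D hD (h ▸ h')
  have hC2 : (cluW G.Adj s ∩ Sp).card ≤ 2 := by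
    by_contra h
    obtain ⟨τ, hτ, hτ'⟩ := exists_fun_of_card (cluW G.Adj s ∩ Sp) 3 (by omega)
    have h3 := hF τ s hτ fun l => mem_cluW.1 (Finset.mem_inter.1 (hτ' l)).1
    rcases hbase with h' | h'
    · exact hxF τ (fun l => (Finset.mem_inter.1 (hτ' l)).2) (h3 ▸ h')
    · exact hyF τ (fun l => (Finset.mem_inter.1 (hτ' l)).2) (h3 ▸ h')
  have hcr : ∀ u w a v, u ∈ cluW G.Adj s → w ∈ cluW G.Adj s → a ∈ cluW G.Adj s → u ∈ Sp →
      w ∈ Sp → u ≠ w → a ∉ Sp → v ∉ Sp → G.Adj v u → G.Adj v w → G.Adj v a →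
      ¬ (v ∈ A ↔ a ∈ A) → False := by
    intro u w a v huC hwC haC hu hw huw haS hvS hvu hvw hva hside
    have hmem : ∃ σ, Crosser G A σ u w s := by
      have h1 : a ≠ u := fun h => haS (h ▸ hu)
      have h2 : a ≠ w := fun h => haS (h ▸ hw)
      by_cases haA : a ∈ A
      · have hvA : v ∉ A := fun h => hside ⟨fun _ => haA, fun _ => h⟩
        exact ⟨true, mem_cluW.1 huC, mem_cluW.1 hwC, a, v, mem_cluW.1 haC, h1, h2, hvu, hvw,
          hva, by simp [haA], by simp [hvA]⟩
      · have hvA : v ∈ A := by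
          by_contra h
          exact hside ⟨fun h' => absurd h' h, fun h' => absurd h' haA⟩
        exact ⟨false, mem_cluW.1 huC, mem_cluW.1 hwC, a, v, mem_cluW.1 haC, h1, h2, hvu, hvw,
          hva, by simp [haA], by simp [hvA]⟩
    obtain ⟨σ, hσ⟩ := hmem
    have h3 := hCR σ u w huw s hσ
    rcases hbase with h' | h'
    · exact hxC σ u hu w hw _ h3 h'
    · exact hyC σ u hu w hw _ h3 h'
  have hthree : ∀ a b c D, a ∈ cluW G.Adj s → b ∈ cluW G.Adj s → c ∈ cluW G.Adj s → a ∈ D →
      b ∈ D → c ∈ D → a ≠ b → a ≠ c → b ≠ c → D ∈ MC → False := by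
    intro a b c D ha hb hc ha' hb' hc' hab hac hbc hD
    refine hne D hD ?_
    obtain ⟨t, -, ht⟩ := hMC' D hD
    rw [ht] at ha' hb' hc' ⊢
    exact cluW_eq (Finset.two_lt_card.2 ⟨a, Finset.mem_inter.2 ⟨ha', ha⟩, b,
      Finset.mem_inter.2 ⟨hb', hb⟩, c, Finset.mem_inter.2 ⟨hc', hc⟩, hab, hac, hbc⟩)
  have hm : ∀ u v w, u ∈ cluW G.Adj s → v ∈ cluW G.Adj s → w ∈ cluW G.Adj s → u ∉ Sp → v ∉ Sp →
      w ∉ Sp → G.Adj u v → G.Adj u w → ¬ (u ∈ A ↔ v ∈ A) → ¬ (u ∈ A ↔ w ∈ A) → v = w := by
    intro u v w huC hvC hwC huS hvS hwS huv huw hc1 hc2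
    by_contra hvw
    have hb : ∀ z, z ∉ Sp → G.Adj u z → ¬ (u ∈ A ↔ z ∈ A) → ∃ t, Main G k A t ∧
        InW G.Adj t u ∧ InW G.Adj t z := by
      intro z hzS huz hc
      by_cases hu : u ∈ A
      · exact hbig u z hu (fun h => hc ⟨fun _ => h, fun _ => hu⟩) huz huS hzS
      · have hz : z ∈ A := by
          by_contra h
          exact hc ⟨fun h' => absurd h' hu, fun h' => absurd h' h⟩
        obtain ⟨t, h1, h2, h3⟩ := hbig z u hz hu huz.symm hzS huS
        exact ⟨t, h1, h3, h2⟩
    obtain ⟨t, ht, h1, h2⟩ := hb v hvS huv hc1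
    obtain ⟨t', ht', h3, h4⟩ := hb w hwS huw hc2
    by_cases he : cluW G.Adj t = cluW G.Adj t'
    · exact hthree u v w (cluW G.Adj t) huC hvC hwC (mem_cluW.2 h1) (mem_cluW.2 h2)
        (by rw [he]; exact mem_cluW.2 h4) huv.ne huw.ne hvw (hMC t ht)
    · exact huS (hSpZ (hZ _ (hMC t ht) _ (hMC t' ht') he (Finset.mem_inter.2
        ⟨mem_cluW.2 h1, mem_cluW.2 h3⟩)))
  obtain ⟨z, -, hz⟩ := exists_good (m := 1) _ Finset.univ
    (card_badW hC2 hx1.seed rfl) (by decide)
  have hz0 : s (z 0) ∉ Sp := fun h => (hz 0).2 (Finset.mem_filter.2 ⟨Finset.mem_univ _, h⟩)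
  have h1 := one_sideW G hC2 hm hcr hx1 rfl hxS (z 0) hz0
  have h2 := one_sideW G hC2 hm hcr hy1 rfl hyS (z 0) hz0
  exact hyA (h2.2 (h1.1 hxA))

theorem farW_of_ne {V : Type} [Fintype V] [LinearOrder V] {G : SimpleGraph V}
    {s t : Fin 14 → V} (h : cluW G.Adj s ≠ cluW G.Adj t) : FarW G s t := fun ⟨x, hx, h1⟩ => h (by
  ext v
  rw [mem_cluW, mem_cluW]
  exact InW.merge hx h1 v)

end CutCoverW

open CutCoverW in
/-- The cuts of the sparse graph are covered by few vertices, if all matchings across the cut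
outside the main clusters have fewer than `ramW k` edges. -/
theorem covered_HW_of_matching {V : Type} [Fintype V] [LinearOrder V] (G : SimpleGraph V) (k : ℕ)
    (A : Finset V) (hA : Mim G k A)
    (hW1 : ∀ a b : Fin (ramW k) → V, Injective a → Injective b →
      (∀ i, a i ∈ A ∧ b i ∉ A ∧ G.Adj (a i) (b i)) →
      (∀ i, ¬ ∃ s, Main G k A s ∧ InW G.Adj s (a i) ∧ InW G.Adj s (b i)) → False) :
    Covered (HW G) (bndW k) A := by
  refine covered_aux G k A (fun a b ha hb h => hW1 a b ha hb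
    (fun i => ⟨(h i).1, (h i).2.1, (h i).2.2.1⟩) fun i => (h i).2.2.2)
    (fun m s hs hd => main_le G k A hA m s hs fun i j hij => farW_of_ne (hd i j hij)) ?_
  intro σ u w huw m s hs hd
  have hfar : ∀ i j, i ≠ j → FarW G (s i) (s j) := fun i j hij => farW_of_ne (hd i j hij)
  choose hu hw a v ha hau haw hvu hvw hva hσa hσv using hs
  cases σ
  · exact crosser_le' G k A hA u w huw m s a v
      (fun i => ⟨fun h => Bool.false_ne_true ((hσa i).1 h), (hσv i).2 rfl⟩)
      (fun i => ⟨hu i, hw i, ha i⟩) (fun i => ⟨hau i, haw i⟩)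
      (fun i => ⟨hvu i, hvw i, hva i⟩) hfar
  · exact crosser_le G k A hA u w huw m s a v
      (fun i => ⟨(hσa i).2 rfl, fun h => Bool.false_ne_true ((hσv i).1 h).symm⟩)
      (fun i => ⟨hu i, hw i, ha i⟩) (fun i => ⟨hau i, haw i⟩)
      (fun i => ⟨hvu i, hvw i, hva i⟩) hfar

/-- The cuts of the sparse graph are covered by few vertices. -/
theorem covered_HW {V : Type} [LinearOrder V] [Fintype V] (G : SimpleGraph V) (k : ℕ)
    (A : Finset V) (hA : Mim G k A) : Covered (HW G) (bndW k) A :=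
  covered_HW_of_matching G k A hA fun a b ha hb hab hno =>
    matching_bound G k A hA a b ha hb hab hno

end Pool.Agent.Lib.MP_37c7bf_co_MW

end CutCoverPart

section OrderPart

/-!
# A layout with small covers gives an elimination order
-/

set_option autoImplicit false

namespace Pool.Agent.Lib.MP_37c7bf_co_CW

open Function Pool.Agent.Lib.MP_37c7bf_co_h26tw

namespace N4

section

variable {V : Type} [DecidableEq V]

theorem Lay.prop {Q : Finset V → Prop} {A : Finset V} (h : Lay Q A) : Q A := by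
  cases h with
  | leaf v hv => exact hv
  | node A B _ _ _ hQ => exact hQ

/-- A balanced separator from the layout. -/
theorem balanced {H : SimpleGraph V} {q : ℕ} {A : Finset V} (h : Lay (Covered H q) A)
    (W : Finset V) (hW : 2 ≤ W.card) (hA : W.card < 2 * (W ∩ A).card) :
    ∃ (X : Finset V) (c : V → Fin 3), X.card ≤ 3 * q ∧
      (∀ x y, H.Adj x y → x ∉ X → y ∉ X → c x = c y) ∧
      ∀ i : Fin 3, 2 * (W.filter fun w => w ∉ X ∧ c w = i).card ≤ W.card := by
  induction h with
  | leaf v hv =>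
    exfalso
    have h1 : (W ∩ {v}).card ≤ 1 := by
      refine (Finset.card_le_card Finset.inter_subset_right).trans ?_
      rw [Finset.card_singleton]
    omega
  | node A B hAB hLA hLB hQ ihA ihB =>
    by_cases hA1 : W.card < 2 * (W ∩ A).card
    · exact ihA hA1
    · by_cases hB1 : W.card < 2 * (W ∩ B).card
      · exact ihB hB1
      · obtain ⟨XA, hXA, hXA'⟩ := Lay.prop hLA
        obtain ⟨XB, hXB, hXB'⟩ := Lay.prop hLB
        have hdis : ∀ x, x ∈ A → x ∉ B := fun x hx hx' => Finset.disjoint_left.1 hAB hx hx'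
        refine ⟨XA ∪ XB, fun x => if x ∈ A then 0 else if x ∈ B then 1 else 2, ?_, ?_, ?_⟩
        · have := Finset.card_union_le XA XB
          omega
        · intro x y hxy hx hy
          rw [Finset.mem_union, not_or] at hx hy
          by_cases h1 : x ∈ A
          · by_cases h2 : y ∈ A
            · simp only [if_pos h1, if_pos h2]
            · rcases hXA' x h1 y h2 hxy with h3 | h3
              · exact absurd h3 hx.1
              · exact absurd h3 hy.1
          · by_cases h2 : y ∈ A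
            · rcases hXA' y h2 x h1 hxy.symm with h3 | h3
              · exact absurd h3 hy.1
              · exact absurd h3 hx.1
            · by_cases h3 : x ∈ B
              · by_cases h4 : y ∈ B
                · simp only [if_neg h1, if_neg h2, if_pos h3, if_pos h4]
                · rcases hXB' x h3 y h4 hxy with h5 | h5
                  · exact absurd h5 hx.2
                  · exact absurd h5 hy.2
              · by_cases h4 : y ∈ B
                · rcases hXB' y h4 x h3 hxy.symm with h5 | h5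
                  · exact absurd h5 hy.2
                  · exact absurd h5 hx.2
                · simp only [if_neg h1, if_neg h2, if_neg h3, if_neg h4]
        · intro i
          have e0 : ∀ w, (if w ∈ A then (0 : Fin 3) else if w ∈ B then 1 else 2) = i →
              (i = 0 ∧ w ∈ A) ∨ (i = 1 ∧ w ∈ B) ∨ (i = 2 ∧ w ∉ A ∪ B) := by
            intro w hw
            by_cases h1 : w ∈ A
            · rw [if_pos h1] at hw
              exact Or.inl ⟨hw.symm, h1⟩
            · rw [if_neg h1] at hw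
              by_cases h2 : w ∈ B
              · rw [if_pos h2] at hw
                exact Or.inr (Or.inl ⟨hw.symm, h2⟩)
              · rw [if_neg h2] at hw
                refine Or.inr (Or.inr ⟨hw.symm, ?_⟩)
                rw [Finset.mem_union, not_or]
                exact ⟨h1, h2⟩
          have hi : i = 0 ∨ i = 1 ∨ i = 2 := by
            fin_cases i <;> simp
          rcases hi with rfl | rfl | rfl
          · have hs : (W.filter fun w => w ∉ XA ∪ XB ∧
                (if w ∈ A then (0 : Fin 3) else if w ∈ B then 1 else 2) = 0) ⊆ W ∩ A := by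
              intro w hw
              obtain ⟨h1, -, h2⟩ := Finset.mem_filter.1 hw
              rcases e0 w h2 with ⟨-, h3⟩ | ⟨h3, -⟩ | ⟨h3, -⟩
              · exact Finset.mem_inter.2 ⟨h1, h3⟩
              · exact absurd h3 (by decide)
              · exact absurd h3 (by decide)
            have h9 := Finset.card_le_card hs
            refine (Nat.mul_le_mul_left 2 h9).trans ?_
            omega
          · have hs : (W.filter fun w => w ∉ XA ∪ XB ∧
                (if w ∈ A then (0 : Fin 3) else if w ∈ B then 1 else 2) = 1) ⊆ W ∩ B := by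
              intro w hw
              obtain ⟨h1, -, h2⟩ := Finset.mem_filter.1 hw
              rcases e0 w h2 with ⟨h3, -⟩ | ⟨-, h3⟩ | ⟨h3, -⟩
              · exact absurd h3 (by decide)
              · exact Finset.mem_inter.2 ⟨h1, h3⟩
              · exact absurd h3 (by decide)
            have h9 := Finset.card_le_card hs
            refine (Nat.mul_le_mul_left 2 h9).trans ?_
            omega
          · have hs : (W.filter fun w => w ∉ XA ∪ XB ∧
                (if w ∈ A then (0 : Fin 3) else if w ∈ B then 1 else 2) = 2) ⊆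
                W \ (A ∪ B) := by
              intro w hw
              obtain ⟨h1, -, h2⟩ := Finset.mem_filter.1 hw
              rcases e0 w h2 with ⟨h3, -⟩ | ⟨h3, -⟩ | ⟨-, h3⟩
              · exact absurd h3 (by decide)
              · exact absurd h3 (by decide)
              · exact Finset.mem_sdiff.2 ⟨h1, h3⟩
            have h4 := Finset.card_le_card hs
            have h5 := Finset.card_sdiff_add_card_inter W (A ∪ B)
            have h6 : (W ∩ (A ∪ B)).card = (W ∩ A).card + (W ∩ B).card := by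
              rw [Finset.inter_union_distrib_left, Finset.card_union_of_disjoint]
              exact Finset.disjoint_of_subset_left Finset.inter_subset_right
                (Finset.disjoint_of_subset_right Finset.inter_subset_right hAB)
            refine (Nat.mul_le_mul_left 2 h4).trans ?_
            omega

end

section

variable {n : ℕ}

/-- `τ` is a good order of `U` with boundary `W`. -/
def Good (H : SimpleGraph (Fin n)) (b : ℕ) (U : Finset (Fin n)) (τ : Fin n → ℕ) : Prop :=
  (∀ u ∈ U, ∀ u' ∈ U, τ u = τ u' → u = u') ∧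
  ∀ v ∈ U, ∃ K S : Finset (Fin n), v ∈ K ∧ (∀ u ∈ K, u ∈ U ∧ τ u ≤ τ v) ∧ S.card ≤ b ∧
    ∀ u ∈ K, ∀ w, H.Adj u w → w ∈ K ∨ (w ∈ S ∧ (w ∈ U → τ v < τ w))

theorem exists_good {H : SimpleGraph (Fin n)} {q : ℕ} (hq : 1 ≤ q)
    (h : Lay (Covered H q) Finset.univ) (m : ℕ) : ∀ U W : Finset (Fin n), U.card ≤ m →
      Disjoint U W → (∀ u ∈ U, ∀ w, H.Adj u w → w ∈ U ∨ w ∈ W) → W.card ≤ 6 * q →
      ∃ τ, Good H (9 * q + 1) U τ := by
  induction m with
  | zero =>
    intro U W hU _ _ _
    have hU0 : U = ∅ := Finset.card_eq_zero.1 (Nat.le_zero.1 hU)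
    subst hU0
    exact ⟨fun _ => 0, by simp [Good]⟩
  | succ m ih =>
    intro U W hU hdis hN hW
    by_cases hsmall : (U ∪ W).card ≤ 6 * q
    · refine ⟨fun u : Fin n => u.val, fun u _ u' _ h => Fin.ext h, fun v hv => ?_⟩
      refine ⟨U.filter fun u : Fin n => u.val ≤ v.val, U ∪ W, ?_, ?_, by omega, ?_⟩
      · exact Finset.mem_filter.2 ⟨hv, le_rfl⟩
      · intro u hu
        exact Finset.mem_filter.1 hu
      · intro u hu w huw
        have hu' := (Finset.mem_filter.1 hu).1
        by_cases h1 : w ∈ U.filter fun u : Fin n => u.val ≤ v.val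
        · exact Or.inl h1
        · right
          refine ⟨Finset.mem_union.2 (hN u hu' w huw), fun hwU => ?_⟩
          change v.val < w.val
          by_contra h2
          exact h1 (Finset.mem_filter.2 ⟨hwU, not_lt.1 h2⟩)
    · -- enlarge the boundary
      push Not at hsmall
      obtain ⟨W', hWW', hW'U, hW'⟩ := Finset.exists_subsuperset_card_eq
        (Finset.subset_union_right : W ⊆ U ∪ W) (show W.card ≤ 6 * q + 1 by omega)
        (show 6 * q + 1 ≤ (U ∪ W).card by omega)
      obtain ⟨X, c, hX, hc, hbal⟩ := balanced h W' (by omega) (by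
        rw [Finset.inter_univ]; omega)
      -- the parts
      set B : Finset (Fin n) := (W' ∪ X) ∩ U with hB
      set P : Fin 3 → Finset (Fin n) := fun i => U.filter fun u => u ∉ W' ∪ X ∧ c u = i with hP
      set Wc : Fin 3 → Finset (Fin n) := fun i => (W'.filter fun w => w ∉ X ∧ c w = i) ∪ X
        with hWc
      have hmemP : ∀ i u, u ∈ P i ↔ u ∈ U ∧ u ∉ W' ∧ u ∉ X ∧ c u = i := by
        intro i u
        rw [hP]
        simp only [Finset.mem_filter, Finset.mem_union, not_or]
        tauto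
      have hmemWc : ∀ i w, w ∈ Wc i ↔ (w ∈ W' ∧ w ∉ X ∧ c w = i) ∨ w ∈ X := by
        intro i w
        rw [hWc]
        simp only [Finset.mem_union, Finset.mem_filter]
      have hmemB : ∀ u, u ∈ B ↔ (u ∈ W' ∨ u ∈ X) ∧ u ∈ U := by
        intro u
        rw [hB, Finset.mem_inter, Finset.mem_union]
      have hWlt : ∃ u ∈ U, u ∈ W' := by
        by_contra hcon
        push Not at hcon
        have h1 : W' ⊆ W := by
          intro w hw
          rcases Finset.mem_union.1 (hW'U hw) with h2 | h2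
          · exact absurd hw (hcon w h2)
          · exact h2
        have := Finset.card_le_card h1
        omega
      have hPcard : ∀ i, (P i).card ≤ m := by
        intro i
        obtain ⟨u, hu, huW⟩ := hWlt
        have h1 : P i ⊂ U := by
          refine ⟨fun x hx => ((hmemP i x).1 hx).1, fun hcon => ?_⟩
          exact ((hmemP i u).1 (hcon hu)).2.1 huW
        have := Finset.card_lt_card h1
        omega
      have hrec : ∀ i, ∃ τ, Good H (9 * q + 1) (P i) τ := by
        intro i
        refine ih (P i) (Wc i) (hPcard i) ?_ ?_ ?_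
        · rw [Finset.disjoint_left]
          intro x hx hx'
          obtain ⟨-, h1, h2, -⟩ := (hmemP i x).1 hx
          rcases (hmemWc i x).1 hx' with h3 | h3
          · exact h1 h3.1
          · exact h2 h3
        · intro u hu w huw
          obtain ⟨h1, h2, h3, h4⟩ := (hmemP i u).1 hu
          by_cases hwX : w ∈ X
          · exact Or.inr ((hmemWc i w).2 (Or.inr hwX))
          · have hcw : c w = i := by rw [← hc u w huw h3 hwX, h4]
            by_cases hwW : w ∈ W'
            · exact Or.inr ((hmemWc i w).2 (Or.inl ⟨hwW, hwX, hcw⟩))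
            · left
              rcases hN u h1 w huw with h5 | h5
              · exact (hmemP i w).2 ⟨h5, hwW, hwX, hcw⟩
              · exact absurd (hWW' h5) hwW
        · have h1 := hbal i
          have h2 := Finset.card_union_le (W'.filter fun w => w ∉ X ∧ c w = i) X
          change ((W'.filter fun w => w ∉ X ∧ c w = i) ∪ X).card ≤ 6 * q
          omega
      choose σ hσ using hrec
      -- the order
      obtain ⟨M, hM⟩ : ∃ M, ∀ u : Fin n, 3 * σ (c u) u + (c u : ℕ) < M := by
        refine ⟨Finset.univ.sup (fun u : Fin n => 3 * σ (c u) u + (c u : ℕ)) + 1, fun u => ?_⟩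
        have := Finset.le_sup (f := fun u : Fin n => 3 * σ (c u) u + (c u : ℕ))
          (Finset.mem_univ u)
        exact Nat.lt_succ_of_le this
      set τ : Fin n → ℕ := fun u => if u ∈ B then M + (u : ℕ) else 3 * σ (c u) u + (c u : ℕ)
        with hτ
      have τB : ∀ u, u ∈ B → τ u = M + (u : ℕ) := fun u hu => if_pos hu
      have τP : ∀ i u, u ∈ P i → τ u = 3 * σ i u + (i : ℕ) ∧ τ u < M := by
        intro i u hu
        obtain ⟨h1, h2, h3, h4⟩ := (hmemP i u).1 hu
        have h5 : u ∉ B := by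
          rw [hmemB]
          rintro ⟨h6 | h6, -⟩
          · exact h2 h6
          · exact h3 h6
        have h6 : τ u = 3 * σ (c u) u + (c u : ℕ) := if_neg h5
        refine ⟨by rw [h6, h4], by rw [h6]; exact hM u⟩
      have hcase : ∀ u ∈ U, u ∈ B ∨ ∃ i, u ∈ P i := by
        intro u hu
        by_cases h1 : u ∈ B
        · exact Or.inl h1
        · right
          rw [hmemB, not_and] at h1
          refine ⟨c u, (hmemP _ u).2 ⟨hu, ?_, ?_, rfl⟩⟩
          · exact fun h2 => h1 (Or.inl h2) hu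
          · exact fun h2 => h1 (Or.inr h2) hu
      refine ⟨τ, ?_, ?_⟩
      · intro u hu u' hu' huu'
        rcases hcase u hu with h1 | ⟨i, h1⟩
        · rcases hcase u' hu' with h2 | ⟨j, h2⟩
          · rw [τB u h1, τB u' h2] at huu'
            exact Fin.ext (by omega)
          · have h3 := (τP j u' h2).2
            rw [← huu', τB u h1] at h3
            omega
        · rcases hcase u' hu' with h2 | ⟨j, h2⟩
          · have h3 := (τP i u h1).2
            rw [huu', τB u' h2] at h3
            omega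
          · have h3 := (τP i u h1).1
            have h4 := (τP j u' h2).1
            have hi := i.2
            have hj := j.2
            have hij : (i : ℕ) = (j : ℕ) := by omega
            have hij' : i = j := Fin.ext hij
            subst hij'
            exact (hσ i).1 u h1 u' h2 (by omega)
      · intro v hv
        rcases hcase v hv with h1 | ⟨i, h1⟩
        · -- `v` in the last block
          refine ⟨U.filter fun u => τ u ≤ τ v, W' ∪ X, ?_, ?_, ?_, ?_⟩
          · exact Finset.mem_filter.2 ⟨hv, le_rfl⟩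
          · intro u hu
            exact Finset.mem_filter.1 hu
          · have := Finset.card_union_le W' X
            omega
          · intro u hu w huw
            have hu' := (Finset.mem_filter.1 hu).1
            by_cases h2 : w ∈ U.filter fun u => τ u ≤ τ v
            · exact Or.inl h2
            · right
              have hlt : w ∈ U → τ v < τ w := by
                intro hwU
                by_contra h3
                exact h2 (Finset.mem_filter.2 ⟨hwU, not_lt.1 h3⟩)
              refine ⟨?_, hlt⟩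
              rcases hN u hu' w huw with h3 | h3
              · rcases hcase w h3 with h4 | ⟨j, h4⟩
                · exact Finset.mem_union.2 ((hmemB w).1 h4).1
                · exfalso
                  have h5 := (τP j w h4).2
                  have h6 := hlt h3
                  rw [τB v h1] at h6
                  omega
              · exact Finset.mem_union.2 (Or.inl (hWW' h3))
        · obtain ⟨K, S, hvK, hK, hS, hKS⟩ := (hσ i).2 v h1
          refine ⟨K, S, hvK, ?_, hS, ?_⟩
          · intro u hu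
            obtain ⟨h2, h3⟩ := hK u hu
            refine ⟨((hmemP i u).1 h2).1, ?_⟩
            rw [(τP i u h2).1, (τP i v h1).1]
            omega
          · intro u hu w huw
            rcases hKS u hu w huw with h2 | ⟨h2, h3⟩
            · exact Or.inl h2
            · refine Or.inr ⟨h2, fun hwU => ?_⟩
              rcases hcase w hwU with h4 | ⟨j, h4⟩
              · rw [τB w h4]
                have := (τP i v h1).2
                omega
              · -- `w` has the colour of `u`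
                have h5 := (hmemP i u).1 (hK u hu).1
                have h6 := (hmemP j w).1 h4
                have h7 : j = i := by
                  rw [← h5.2.2.2, ← h6.2.2.2]
                  exact (hc u w huw h5.2.2.1 h6.2.2.1).symm
                subst h7
                have h8 := h3 h4
                rw [(τP j w h4).1, (τP j v h1).1]
                omega

end

end N4

open N4 in
/-- **A layout with small covers gives an elimination order.** -/
theorem exists_order_of_lay {n : ℕ} (hn : 0 < n) (H : SimpleGraph (Fin n)) (q : ℕ) (hq : 1 ≤ q)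
    (h : Lay (Covered H q) Finset.univ) :
    ∃ τ : ℕ → ℕ, (∀ x < n, ∀ y < n, τ x = τ y → x = y) ∧ (∀ x < n, x ≠ 0 → τ x < τ 0) ∧
      Sep (9 * q + 2) n (adjF H) τ := by
  classical
  set z0 : Fin n := ⟨0, hn⟩ with hz0
  obtain ⟨σ, hσ1, hσ2⟩ := exists_good hq h (Finset.univ.erase z0).card (Finset.univ.erase z0) {z0}
    le_rfl (by simp) (fun u _ w _ => by
      by_cases h1 : w = z0
      · exact Or.inr (Finset.mem_singleton.2 h1)
      · exact Or.inl (Finset.mem_erase.2 ⟨h1, Finset.mem_univ _⟩)) (by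
      rw [Finset.card_singleton]; omega)
  obtain ⟨M, hM⟩ : ∃ M, ∀ u : Fin n, σ u < M := by
    refine ⟨Finset.univ.sup σ + 1, fun u => ?_⟩
    exact Nat.lt_succ_of_le (Finset.le_sup (f := σ) (Finset.mem_univ u))
  set τ : ℕ → ℕ := fun x => if hx : x < n ∧ x ≠ 0 then σ ⟨x, hx.1⟩ else M with hτ
  have τ1 : ∀ (x : ℕ) (hx : x < n) (h0 : x ≠ 0), τ x = σ ⟨x, hx⟩ := by
    intro x hx h0
    simp [hτ, hx, h0]
  have τ0 : τ 0 = M := by simp [hτ]
  have τlt : ∀ x < n, x ≠ 0 → τ x < τ 0 := by
    intro x hx h0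
    rw [τ1 x hx h0, τ0]
    exact hM _
  have hmem : ∀ (x : ℕ) (hx : x < n), x ≠ 0 → (⟨x, hx⟩ : Fin n) ∈ Finset.univ.erase z0 := by
    intro x hx h0
    refine Finset.mem_erase.2 ⟨fun hc => h0 ?_, Finset.mem_univ _⟩
    exact congrArg Fin.val hc
  refine ⟨τ, ?_, τlt, ?_⟩
  · intro x hx y hy hxy
    by_cases h0 : x = 0
    · by_cases h1 : y = 0
      · rw [h0, h1]
      · have := τlt y hy h1
        rw [h0] at hxy
        omega
    · by_cases h1 : y = 0
      · have := τlt x hx h0
        rw [h1] at hxy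
        omega
      · rw [τ1 x hx h0, τ1 y hy h1] at hxy
        exact congrArg Fin.val (hσ1 _ (hmem x hx h0) _ (hmem y hy h1) hxy)
  · rintro T z v hv hmax ⟨hinj, hT⟩
    have hA : ∀ x y, adjF H x y → y < n := fun x y h => h.2.1
    have hsymm : ∀ x y, adjF H x y → adjF H y x := fun x y ⟨h1, h2, h3⟩ => ⟨h2, h1, h3.symm⟩
    have hvn : v < n := hv.lt' hA
    have hTn : ∀ l, T l < n := by
      intro l
      obtain ⟨⟨y, -, hy⟩, -⟩ := hT l
      exact hA _ _ hy
    have hT0 : τ v < τ 0 := by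
      have h1 := (hT ⟨0, by omega⟩).2
      by_cases h0 : T ⟨0, by omega⟩ = 0
      · rwa [h0] at h1
      · exact h1.trans (τlt _ (hTn _) h0)
    have hv0 : v ≠ 0 := by rintro rfl; omega
    obtain ⟨K, S, hvK, hK, hS, hKS⟩ := hσ2 ⟨v, hvn⟩ (hmem v hvn hv0)
    -- the component is contained in `K`
    have hCK : ∀ y, Comp n (adjF H) T z y → ∃ hy : y < n, (⟨y, hy⟩ : Fin n) ∈ K := by
      intro y hy
      have hvy := (hv.symm hsymm hA).trans hy
      refine hvy.ind (P := fun y => ∃ hy : y < n, (⟨y, hy⟩ : Fin n) ∈ K) ⟨hvn, hvK⟩ ?_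
      rintro a b ha ⟨han, haK⟩ ⟨han', hbn, hadj⟩ hb
      refine ⟨hbn, ?_⟩
      rcases hKS _ haK _ hadj with h1 | ⟨-, h1⟩
      · exact h1
      · exfalso
        have hbC : Comp n (adjF H) T z b := hv.trans (ha.tail ⟨han', hbn, hadj⟩ hb)
        have h2 := hmax b hbC
        by_cases hb0 : b = 0
        · subst hb0
          omega
        · have h3 := h1 (hmem b hbn hb0)
          rw [τ1 b hbn hb0, τ1 v hvn hv0] at h2
          omega
    have hTS : ∀ l, (⟨T l, hTn l⟩ : Fin n) ∈ S := by
      intro l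
      obtain ⟨⟨y, hy, hyn, hln, hadj⟩, hlt⟩ := hT l
      obtain ⟨hyn', hyK⟩ := hCK y hy
      rcases hKS _ hyK _ hadj with h1 | ⟨h1, -⟩
      · exfalso
        obtain ⟨h2, h3⟩ := hK _ h1
        have hl0 : T l ≠ 0 := by
          intro hc
          exact (Finset.mem_erase.1 h2).1 (Fin.ext hc)
        rw [τ1 _ (hTn l) hl0, τ1 v hvn hv0] at hlt
        omega
      · exact h1
    have hle : Fintype.card (Fin (9 * q + 2)) ≤ S.card := by
      rw [← Finset.card_univ]
      refine Finset.card_le_card_of_injOn (fun l => (⟨T l, hTn l⟩ : Fin n)) (fun l _ => hTS l) ?_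
      intro a _ b _ hab
      exact hinj (congrArg Fin.val hab)
    rw [Fintype.card_fin] at hle
    omega

end Pool.Agent.Lib.MP_37c7bf_co_CW

end OrderPart
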