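import Pool.Agent.Lib.MP_37c7bf_co_MW.Mimwidth

section DefsPart

/-!
# Graphs of bounded clique-width: definitions for the reduction to bounded treewidth

`InM A s v`: the vertex `v` belongs to the cluster of the `K_{10,4}` enumerated by `s`: clusters
start with a `K_{10,4}`, and two clusters with three common vertices are united. `HG G` is the
graph on the same vertices in which the edges inside each cluster are replaced by all edges from
the three smallest vertices of the cluster to the others.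
-/

set_option autoImplicit false

namespace Pool.Agent.Lib.MP_37c7bf_co_CW

open Function

/-! ### Cuts and layouts -/

section

variable {V : Type}

/-- The vertices of `A` have at most `k` kinds of neighbourhoods outside `A`. -/
def Cut (G : SimpleGraph V) (k : ℕ) (A : Finset V) : Prop :=
  ∃ lab : V → Fin k, ∀ a ∈ A, ∀ a' ∈ A, lab a = lab a' → ∀ b ∉ A, G.Adj a b → G.Adj a' b

/-- At most `q` vertices cover all edges that leave `A`. -/
def Covered (G : SimpleGraph V) (q : ℕ) (A : Finset V) : Prop :=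
  ∃ X : Finset V, X.card ≤ q ∧ ∀ x ∈ A, ∀ y ∉ A, G.Adj x y → x ∈ X ∨ y ∈ X

/-- A binary tree with leaves `v` such that the set of leaves below each node has the property
`Q`; the index is the set of all leaves. -/
inductive Lay [DecidableEq V] (Q : Finset V → Prop) : Finset V → Prop
  | leaf (v : V) : Q {v} → Lay Q {v}
  | node (A B : Finset V) : Disjoint A B → Lay Q A → Lay Q B → Q (A ∪ B) → Lay Q (A ∪ B)

end

/-! ### Clusters -/

section

variable {V : Type}

/-- The places `s 0, …, s 13` are different and `s 0, …, s 9` are related to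
`s 10, …, s 13`. -/
def SeedR (A : V → V → Prop) (s : Fin 14 → V) : Prop :=
  Injective s ∧ ∀ i j : Fin 14, (i : ℕ) < 10 → 10 ≤ (j : ℕ) → A (s i) (s j)

/-- The rules generating the clusters. -/
def MStep (A : V → V → Prop) (R : (Fin 14 → V) → V → Prop) (s : Fin 14 → V) (v : V) : Prop :=
  SeedR A s ∧ ((∃ i, v = s i) ∨
    ∃ t, (∃ x : Fin 3 → V, Injective x ∧ ∀ l, R s (x l) ∧ R t (x l)) ∧ R t v)

/-- The least relation closed under the rules. -/
def InM (A : V → V → Prop) (s : Fin 14 → V) (v : V) : Prop :=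
  ∀ R : (Fin 14 → V) → V → Prop, (∀ s v, MStep A R s v → R s v) → R s v

theorem MStep.mono {A : V → V → Prop} {R R' : (Fin 14 → V) → V → Prop}
    (h : ∀ s v, R s v → R' s v) {s : Fin 14 → V} {v : V} (hv : MStep A R s v) :
    MStep A R' s v := by
  obtain ⟨hs, h1 | ⟨t, ⟨x, hx, h1⟩, h2⟩⟩ := hv
  · exact ⟨hs, Or.inl h1⟩
  · exact ⟨hs, Or.inr ⟨t, ⟨x, hx, fun l => ⟨h _ _ (h1 l).1, h _ _ (h1 l).2⟩⟩, h _ _ h2⟩⟩

/-- Closure under the rules. -/
theorem InM.of_step {A : V → V → Prop} {s : Fin 14 → V} {v : V} (h : MStep A (InM A) s v) :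
    InM A s v := fun R hR => hR s v (h.mono fun _ _ h' => h' R hR)

/-- Induction. -/
theorem InM.ind {A : V → V → Prop} {R : (Fin 14 → V) → V → Prop}
    (hR : ∀ s v, MStep A (fun s v => InM A s v ∧ R s v) s v → R s v) {s : Fin 14 → V} {v : V}
    (h : InM A s v) : R s v :=
  (h (fun s v => InM A s v ∧ R s v) fun _ _ h' =>
    ⟨InM.of_step (h'.mono fun _ _ h => h.1), hR _ _ h'⟩).2

theorem InM.seed {A : V → V → Prop} {s : Fin 14 → V} {v : V} (h : InM A s v) : SeedR A s :=
  InM.ind (R := fun s _ => SeedR A s) (fun _ _ h => h.1) h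

theorem inM_seed {A : V → V → Prop} {s : Fin 14 → V} (h : SeedR A s) (i : Fin 14) :
    InM A s (s i) := InM.of_step ⟨h, Or.inl ⟨i, rfl⟩⟩

/-- Clusters with three common vertices are equal. -/
theorem InM.merge {A : V → V → Prop} {s t : Fin 14 → V} {x : Fin 3 → V} (hx : Injective x)
    (h : ∀ l, InM A s (x l) ∧ InM A t (x l)) (v : V) : InM A s v ↔ InM A t v :=
  ⟨fun hv => InM.of_step ⟨(h 0).2.seed, Or.inr ⟨s, ⟨x, hx, fun l => (h l).symm⟩, hv⟩⟩,
    fun hv => InM.of_step ⟨(h 0).1.seed, Or.inr ⟨t, ⟨x, hx, h⟩, hv⟩⟩⟩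

end

/-! ### The sparse graph -/

section

variable {V : Type} [LinearOrder V]

/-- `x` is one of the three smallest vertices of the cluster of `s`. -/
def IsBase (cl : (Fin 14 → V) → V → Prop) (s : Fin 14 → V) (x : V) : Prop :=
  cl s x ∧ ¬ ∃ y : Fin 3 → V, Injective y ∧ ∀ l, cl s (y l) ∧ y l < x

/-- Adjacency in the sparse graph. -/
def HRel (A : V → V → Prop) (cl : (Fin 14 → V) → V → Prop) (x y : V) : Prop :=
  x ≠ y ∧ ((A x y ∧ ¬ ∃ s, cl s x ∧ cl s y) ∨
    ∃ s, cl s x ∧ cl s y ∧ (IsBase cl s x ∨ IsBase cl s y))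

/-- The sparse graph of `G`: the edges of `G` inside no cluster, and all edges of each cluster
that contain one of its three smallest vertices. -/
def HG (G : SimpleGraph V) : SimpleGraph V where
  Adj := HRel G.Adj (InM G.Adj)
  symm.symm x y := by
    rintro ⟨h1, ⟨h2, h3⟩ | ⟨s, h2, h3, h4⟩⟩
    · exact ⟨h1.symm, Or.inl ⟨h2.symm, fun ⟨s, h4, h5⟩ => h3 ⟨s, h5, h4⟩⟩⟩
    · exact ⟨h1.symm, Or.inr ⟨s, h3, h2, h4.symm⟩⟩
  loopless := ⟨fun x h => h.1 rfl⟩

end

/-- The bound for the cuts of the sparse graph. -/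
def bnd (k : ℕ) : ℕ := (9 * k + 2 * k ^ 2) + 3 * (k + (9 * k + 2 * k ^ 2) ^ 3)

end Pool.Agent.Lib.MP_37c7bf_co_CW

end DefsPart

section LayMonoPart

/-! # Weakening the property in a layout -/

set_option autoImplicit false

namespace Pool.Agent.Lib.MP_37c7bf_co_CW

theorem Lay.mono {V : Type} [DecidableEq V] {Q Q' : Finset V → Prop} {A : Finset V}
    (h : Lay Q A) (hQ : ∀ A, Q A → Q' A) : Lay Q' A := by
  induction h with
  | leaf v hv => exact Lay.leaf v (hQ _ hv)
  | node A B hAB _ _ hQAB ih1 ih2 => exact Lay.node A B hAB ih1 ih2 (hQ _ hQAB)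

end Pool.Agent.Lib.MP_37c7bf_co_CW

end LayMonoPart

section DefsPart

/-!
# Graphs of bounded mim-width: definitions for the reduction to bounded treewidth

`InW A s v`: the vertex `v` belongs to the cluster of the `K_{10,4}` enumerated by `s`: clusters
start with a `K_{10,4}`, contain every vertex with three neighbours in them, and two clusters with
three common vertices are united. `HW G` is the graph on the same vertices in which the edges
inside each cluster are replaced by all edges from the three smallest vertices of the cluster to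
the others.
-/

set_option autoImplicit false

namespace Pool.Agent.Lib.MP_37c7bf_co_MW

open Function Pool.Agent.Lib.MP_37c7bf_co_CW

/-! ### Clusters -/

section

variable {V : Type}

/-- The rules generating the clusters. -/
def WStep (A : V → V → Prop) (R : (Fin 14 → V) → V → Prop) (s : Fin 14 → V) (v : V) : Prop :=
  SeedR A s ∧ ((∃ i, v = s i) ∨
    (∃ a : Fin 3 → V, Injective a ∧ ∀ l, R s (a l) ∧ A v (a l)) ∨
    ∃ t, (∃ x : Fin 3 → V, Injective x ∧ ∀ l, R s (x l) ∧ R t (x l)) ∧ R t v)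

/-- The least relation closed under the rules. -/
def InW (A : V → V → Prop) (s : Fin 14 → V) (v : V) : Prop :=
  ∀ R : (Fin 14 → V) → V → Prop, (∀ s v, WStep A R s v → R s v) → R s v

theorem WStep.mono {A : V → V → Prop} {R R' : (Fin 14 → V) → V → Prop}
    (h : ∀ s v, R s v → R' s v) {s : Fin 14 → V} {v : V} (hv : WStep A R s v) :
    WStep A R' s v := by
  obtain ⟨hs, h1 | ⟨a, ha, h1⟩ | ⟨t, ⟨x, hx, h1⟩, h2⟩⟩ := hv
  · exact ⟨hs, Or.inl h1⟩
  · exact ⟨hs, Or.inr (Or.inl ⟨a, ha, fun l => ⟨h _ _ (h1 l).1, (h1 l).2⟩⟩)⟩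
  · exact ⟨hs, Or.inr (Or.inr ⟨t, ⟨x, hx, fun l => ⟨h _ _ (h1 l).1, h _ _ (h1 l).2⟩⟩, h _ _ h2⟩)⟩

/-- Closure under the rules. -/
theorem InW.of_step {A : V → V → Prop} {s : Fin 14 → V} {v : V} (h : WStep A (InW A) s v) :
    InW A s v := fun R hR => hR s v (h.mono fun _ _ h' => h' R hR)

/-- Induction. -/
theorem InW.ind {A : V → V → Prop} {R : (Fin 14 → V) → V → Prop}
    (hR : ∀ s v, WStep A (fun s v => InW A s v ∧ R s v) s v → R s v) {s : Fin 14 → V} {v : V}
    (h : InW A s v) : R s v :=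
  (h (fun s v => InW A s v ∧ R s v) fun _ _ h' =>
    ⟨InW.of_step (h'.mono fun _ _ h => h.1), hR _ _ h'⟩).2

theorem InW.seed {A : V → V → Prop} {s : Fin 14 → V} {v : V} (h : InW A s v) : SeedR A s :=
  InW.ind (R := fun s _ => SeedR A s) (fun _ _ h => h.1) h

theorem inW_seed {A : V → V → Prop} {s : Fin 14 → V} (h : SeedR A s) (i : Fin 14) :
    InW A s (s i) := InW.of_step ⟨h, Or.inl ⟨i, rfl⟩⟩

/-- A vertex with three neighbours in a cluster belongs to it. -/
theorem InW.nbr {A : V → V → Prop} {s : Fin 14 → V} {v : V} {a : Fin 3 → V} (ha : Injective a)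
    (h : ∀ l, InW A s (a l) ∧ A v (a l)) : InW A s v :=
  InW.of_step ⟨(h 0).1.seed, Or.inr (Or.inl ⟨a, ha, h⟩)⟩

/-- Clusters with three common vertices are equal. -/
theorem InW.merge {A : V → V → Prop} {s t : Fin 14 → V} {x : Fin 3 → V} (hx : Injective x)
    (h : ∀ l, InW A s (x l) ∧ InW A t (x l)) (v : V) : InW A s v ↔ InW A t v :=
  ⟨fun hv => InW.of_step ⟨(h 0).2.seed, Or.inr (Or.inr ⟨s, ⟨x, hx, fun l => (h l).symm⟩, hv⟩)⟩,
    fun hv => InW.of_step ⟨(h 0).1.seed, Or.inr (Or.inr ⟨t, ⟨x, hx, h⟩, hv⟩)⟩⟩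

end

/-! ### The sparse graph -/

/-- The sparse graph of `G`: the edges of `G` inside no cluster, and all edges of each cluster
that contain one of its three smallest vertices. -/
def HW {V : Type} [LinearOrder V] (G : SimpleGraph V) : SimpleGraph V where
  Adj := HRel G.Adj (InW G.Adj)
  symm.symm x y := by
    rintro ⟨h1, ⟨h2, h3⟩ | ⟨s, h2, h3, h4⟩⟩
    · exact ⟨h1.symm, Or.inl ⟨h2.symm, fun ⟨s, h4, h5⟩ => h3 ⟨s, h5, h4⟩⟩⟩
    · exact ⟨h1.symm, Or.inr ⟨s, h3, h2, h4.symm⟩⟩
  loopless := ⟨fun x h => h.1 rfl⟩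

/-! ### Cuts -/

/-- Induced matchings across the cut have at most `k` edges. -/
def Mim {V : Type} (G : SimpleGraph V) (k : ℕ) (A : Finset V) : Prop :=
  ∀ (m : ℕ) (a b : Fin m → V), (∀ i, a i ∈ A ∧ b i ∉ A) →
    (∀ i j, G.Adj (a i) (b j) ↔ i = j) → m ≤ k

/-- The cluster of `s` contains a complete bipartite graph `K_{4k+14,4k+14}` across the cut. -/
def Main {V : Type} (G : SimpleGraph V) (k : ℕ) (A : Finset V) (s : Fin 14 → V) : Prop :=
  ∃ P Q : Finset V, P.card = 4 * k + 14 ∧ Q.card = 4 * k + 14 ∧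
    (∀ x ∈ P, x ∈ A ∧ InW G.Adj s x) ∧ (∀ y ∈ Q, y ∉ A ∧ InW G.Adj s y) ∧
    ∀ x ∈ P, ∀ y ∈ Q, G.Adj x y

/-- A bound for matchings across the cut outside the main clusters. -/
def ramW (k : ℕ) : ℕ := 3 ^ (9 * (4 * k + 14))

/-- The size of the separator inside the cut. -/
def sepW (k : ℕ) : ℕ := 2 * ramW k + 2 * k ^ 2

/-- The bound for the cuts of the sparse graph. -/
def bndW (k : ℕ) : ℕ := sepW k + 3 * (k + sepW k ^ 3 + 2 * k * sepW k ^ 2)

end Pool.Agent.Lib.MP_37c7bf_co_MW

end DefsPart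

section LayoutPart

/-! # Layouts of graphs of bounded mim-width -/

set_option autoImplicit false

namespace Pool.Agent.Lib.MP_37c7bf_co_MW

open Pool.Agent.Lib.MP_37c7bf_co_CW (Lay)

theorem mim_of_cut {V : Type} (G : SimpleGraph V) {k : ℕ} {A : Finset V} {B : Set V}
    (hAB : ∀ v, v ∈ A ↔ v ∈ B) (h : CutMimLE G k B) : Mim G k A := fun m a b hab hadj =>
  h m a b (fun i => ⟨(hAB _).1 (hab i).1, fun hb => (hab i).2 ((hAB _).2 hb)⟩) hadj

theorem lay_of_tree {V : Type} [DecidableEq V] (G : SimpleGraph V) {k : ℕ} (T : BTree V) :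
    T.leaves.Nodup → T.AllCuts (CutMimLE G k) → Lay (Mim G k) T.leaves.toFinset := by
  induction T with
  | leaf v =>
    intro _ h
    have : (BTree.leaf v).leaves.toFinset = {v} := rfl
    rw [this]
    exact Lay.leaf v (mim_of_cut G (fun w => by simp) h)
  | node l r ihl ihr =>
    intro hnd h
    obtain ⟨h1, h2, h3⟩ := h
    have hnd' : (l.leaves ++ r.leaves).Nodup := hnd
    obtain ⟨hl, hr, hd⟩ := List.nodup_append.1 hnd'
    have he : (BTree.node l r).leaves.toFinset = l.leaves.toFinset ∪ r.leaves.toFinset :=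
      List.toFinset_append
    rw [he]
    refine Lay.node _ _ ?_ (ihl hl h2) (ihr hr h3) ?_
    · rw [Finset.disjoint_left]
      intro a ha hb
      exact hd a (List.mem_toFinset.1 ha) a (List.mem_toFinset.1 hb) rfl
    · rw [← he]
      exact mim_of_cut G (fun w => List.mem_toFinset) h1

/-- A graph of mim-width at most `k` has a layout all cuts of which have small induced
matchings. -/
theorem lay_of_mimwidth {V : Type} [Fintype V] [DecidableEq V] (G : SimpleGraph V) {k : ℕ}
    (h : MimwidthLE G k) : Lay (Mim G k) Finset.univ := by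
  obtain ⟨T, h1, h2, h3⟩ := h
  have := lay_of_tree G T h1 h3
  rwa [show T.leaves.toFinset = Finset.univ from Finset.eq_univ_iff_forall.2 fun v =>
    List.mem_toFinset.2 (h2 v)] at this

end Pool.Agent.Lib.MP_37c7bf_co_MW

end LayoutPart
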