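import Pool.Agent.Lib.MP_37c7bf_co_h54dm.Sound
import Pool.Agent.Lib.MP_37c7bf_co_h91dm.Bridge
import Pool.Agent.Lib.MP_37c7bf_co_CW.Defs

/-! # A graph is generically rigid if and only if its sparse graph is -/

set_option autoImplicit false

open scoped Matrix
open MeasureTheory Function

namespace Pool.Agent.Lib.MP_37c7bf_co_CW

open Pool.Agent.MP_37c7bf_co_Dense Pool.Agent.Lib.MP_37c7bf_co_h54dm
open Pool.Agent.Lib.MP_37c7bf_co_h77dm (InC)

section

variable {V : Type} {G : SimpleGraph V}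

/-- The clusters of this library lie in those of `MP_37c7bf_co_h77dm`. -/
theorem inC_of_inM {s : Fin 14 → V} {v : V} (h : InM G.Adj s v) : InC G s v := by
  refine h (InC G) fun s v hst => InC.of_step ?_
  obtain ⟨hs, h1 | ⟨t, ⟨x, hx, h1⟩, h2⟩⟩ := hst
  · exact ⟨hs, Or.inl h1⟩
  · refine ⟨hs, Or.inr (Or.inr ⟨t, ?_, h2⟩)⟩
    have h0 : ∀ i : Fin ((4 - ((3 : Fin 4) : ℕ)).choose 2), False := fun i => by
      have := i.2
      simp at this
    exact ⟨3, x, fun i => (h0 i).elim, fun i => (h0 i).elim, hx, h1, fun i => (h0 i).elim,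
      fun i => (h0 i).elim, fun i => (h0 i).elim, fun i => (h0 i).elim, fun i => (h0 i).elim,
      fun i => (h0 i).elim⟩

variable [Fintype V] [LinearOrder V]

/-- Every cluster has three base vertices. -/
theorem exists_base {s : Fin 14 → V} (hs : Pool.Agent.Lib.MP_37c7bf_co_CW.SeedR G.Adj s) :
    ∃ b : Fin 3 → V, Injective b ∧ ∀ l, IsBase (InM G.Adj) s (b l) := by
  classical
  obtain ⟨B, hB⟩ : ∃ B : Finset V, ∀ v, v ∈ B ↔ IsBase (InM G.Adj) s v :=
    ⟨Finset.univ.filter fun v => IsBase (InM G.Adj) s v, fun v => by simp⟩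
  have hcard : 3 ≤ B.card := by
    by_contra hc
    push Not at hc
    have hex : ∃ x, InM G.Adj s x ∧ x ∉ B := by
      by_contra hcon
      push Not at hcon
      have h1 : (Finset.univ.image s) ⊆ B := by
        intro v hv
        obtain ⟨i, -, rfl⟩ := Finset.mem_image.1 hv
        exact hcon _ (inM_seed hs i)
      have h2 := Finset.card_le_card h1
      rw [Finset.card_image_of_injective _ hs.1, Finset.card_univ, Fintype.card_fin] at h2
      omega
    obtain ⟨x, ⟨hx1, hx2⟩, hmin⟩ : ∃ x, (InM G.Adj s x ∧ x ∉ B) ∧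
        ∀ y, (InM G.Adj s y ∧ y ∉ B) → ¬ y < x := by
      obtain ⟨S, hS⟩ : ∃ S : Finset V, ∀ v, v ∈ S ↔ (InM G.Adj s v ∧ v ∉ B) :=
        ⟨Finset.univ.filter fun v => InM G.Adj s v ∧ v ∉ B, fun v => by simp⟩
      have hne : S.Nonempty := by
        obtain ⟨x, hx⟩ := hex
        exact ⟨x, (hS x).2 hx⟩
      exact ⟨S.min' hne, (hS _).1 (S.min'_mem hne), fun y hy => not_lt.2 (S.min'_le y ((hS y).2 hy))⟩
    have hnb : ¬ IsBase (InM G.Adj) s x := fun h => hx2 ((hB x).2 h)
    unfold IsBase at hnb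
    push Not at hnb
    obtain ⟨y, hy, hyl⟩ := hnb hx1
    have h1 : (Finset.univ.image y) ⊆ B := by
      intro v hv
      obtain ⟨l, -, rfl⟩ := Finset.mem_image.1 hv
      by_contra hcon
      exact hmin _ ⟨(hyl l).1, hcon⟩ (hyl l).2
    have h2 := Finset.card_le_card h1
    rw [Finset.card_image_of_injective _ hy, Finset.card_univ, Fintype.card_fin] at h2
    omega
  obtain ⟨T, hT, hT3⟩ := Finset.exists_subset_card_eq hcard
  refine ⟨fun l => T.equivFin.symm (l.cast hT3.symm), ?_, fun l => ?_⟩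
  · intro l l' h
    have := T.equivFin.symm.injective (Subtype.ext h)
    simpa [Fin.ext_iff] using this
  · exact (hB _).1 (hT (T.equivFin.symm (l.cast hT3.symm)).2)

end

variable {V : Type} [Fintype V] [LinearOrder V] {G : SimpleGraph V} {p : V → Pt}

/-- Motions of the sparse graph move each cluster as one rigid body. -/
theorem inM_vel_HG (hp : Good p) (hV : 4 ≤ Fintype.card V) {u : V → Pt}
    (hu : IsInfMotion (HG G) p u) {s : Fin 14 → V}
    (hs : Pool.Agent.Lib.MP_37c7bf_co_CW.SeedR G.Adj s) :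
    ∃ m : Pt × Pt, ∀ v, InM G.Adj s v → u v = vel m (p v) := by
  obtain ⟨b, hb, hbase⟩ := exists_base hs
  have hadj : ∀ v, InM G.Adj s v → ∀ l, v ≠ b l → (HG G).Adj v (b l) := fun v hv l hne =>
    ⟨hne, Or.inr ⟨s, hv, (hbase l).1, Or.inr (hbase l)⟩⟩
  have hcard : 3 ≤ (Finset.univ.image b).card := by
    rw [Finset.card_image_of_injective _ hb, Finset.card_univ, Fintype.card_fin]
  obtain ⟨m, hm⟩ := rig_top hp hV hcard u (by
    intro v hv w hw hvw
    obtain ⟨i, -, rfl⟩ := Finset.mem_image.1 hv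
    obtain ⟨j, -, rfl⟩ := Finset.mem_image.1 hw
    exact hu _ _ (hadj _ (hbase i).1 j hvw.ne))
  have hbm : ∀ l, u (b l) = vel m (p (b l)) := fun l =>
    hm _ (Finset.mem_image_of_mem _ (Finset.mem_univ l))
  refine ⟨m, fun v hv => ?_⟩
  by_cases h : ∃ l, v = b l
  · obtain ⟨l, rfl⟩ := h
    exact hbm l
  · push Not at h
    have hne : ∀ i j, i ≠ j → b i ≠ b j := fun i j hij h => hij (hb h)
    exact hp.vel_of_three (h 0) (h 1) (h 2) (hne 0 1 (by decide)) (hne 0 2 (by decide))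
      (hne 1 2 (by decide)) (hbm 0) (hbm 1) (hbm 2) (hu _ _ (hadj v hv 0 (h 0)))
      (hu _ _ (hadj v hv 1 (h 1))) (hu _ _ (hadj v hv 2 (h 2)))

/-- In general position both graphs have the same infinitesimal motions. -/
theorem motion_iff (hp : Good p) (hV : 4 ≤ Fintype.card V) (u : V → Pt) :
    IsInfMotion G p u ↔ IsInfMotion (HG G) p u := by
  constructor
  · rintro hu x y ⟨hxy, ⟨h, _⟩ | ⟨s, hx, hy, _⟩⟩
    · exact hu x y h
    · obtain ⟨m, hm⟩ := inC_vel hp hV hu hx.seed
      rw [hm x (inC_of_inM hx), hm y (inC_of_inM hy)]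
      exact dot_vel_sub _ _ _
  · intro hu x y hxy
    by_cases h : ∃ s, InM G.Adj s x ∧ InM G.Adj s y
    · obtain ⟨s, hx, hy⟩ := h
      obtain ⟨m, hm⟩ := inM_vel_HG hp hV hu hx.seed
      rw [hm x hx, hm y hy]
      exact dot_vel_sub _ _ _
    · exact hu x y ⟨hxy.ne, Or.inl ⟨hxy, h⟩⟩

theorem infRigid_iff_HG (hp : Good p) (hV : 4 ≤ Fintype.card V) :
    InfRigid G p ↔ InfRigid (HG G) p :=
  ⟨fun h u hu => h u ((motion_iff hp hV u).2 hu), fun h u hu => h u ((motion_iff hp hV u).1 hu)⟩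

/-- **A graph is generically rigid if and only if its sparse graph is.** -/
theorem rigid_iff_HG {n : ℕ} (hn : 4 ≤ n) (G : SimpleGraph (Fin n)) :
    Pool.Agent.H26R.GenericallyRigid G ↔ Pool.Agent.H26R.GenericallyRigid (HG G) := by
  have hV : 4 ≤ Fintype.card (Fin n) := by rw [Fintype.card_fin]; exact hn
  rw [MP_37c7bf_co_h91dm.genericallyRigid_iff_dense hV,
    MP_37c7bf_co_h91dm.genericallyRigid_iff_dense hV]
  unfold GenericallyRigid
  constructor
  · intro h
    filter_upwards [h, ae_good (V := Fin n)] with p h1 hp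
    exact (infRigid_iff_HG hp hV).1 h1
  · intro h
    filter_upwards [h, ae_good (V := Fin n)] with p h1 hp
    exact (infRigid_iff_HG hp hV).2 h1

end Pool.Agent.Lib.MP_37c7bf_co_CW
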