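import Pool.Agent.Lib.MP_37c7bf_co_CW.Cliquewidth
import Pool.Agent.Lib.MP_37c7bf_co_CW.Defs

/-! # Graphs of bounded clique-width have layouts whose cuts have few neighbourhood kinds -/

set_option autoImplicit false

namespace Pool.Agent.Lib.MP_37c7bf_co_CW

namespace CExpr

variable {k : ℕ} {V : Type}

theorem mem_of_label {e : CExpr k V} {u : V} {l : Fin k} (h : e.Label u l) : u ∈ e.verts := by
  induction e generalizing l with
  | vertex v i =>
    obtain ⟨rfl, -⟩ := h
    simp [verts]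
  | union e f ihe ihf =>
    simp only [verts, List.mem_append]
    exact h.imp (fun h => ihe h) (fun h => ihf h)
  | join i j e ih => exact ih h
  | relabel i j e ih =>
    rcases h with ⟨h, -⟩ | ⟨h, -⟩
    · exact ih h
    · exact ih h

theorem exists_label {e : CExpr k V} {u : V} (h : u ∈ e.verts) : ∃ l, e.Label u l := by
  induction e with
  | vertex v i =>
    simp only [verts, List.mem_singleton] at h
    exact ⟨i, h, rfl⟩
  | union e f ihe ihf =>
    simp only [verts, List.mem_append] at h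
    rcases h with h | h
    · obtain ⟨l, hl⟩ := ihe h
      exact ⟨l, Or.inl hl⟩
    · obtain ⟨l, hl⟩ := ihf h
      exact ⟨l, Or.inr hl⟩
  | join i j e ih => exact ih h
  | relabel i j e ih =>
    obtain ⟨l, hl⟩ := ih h
    by_cases hli : l = i
    · subst hli
      exact ⟨j, Or.inr ⟨hl, rfl⟩⟩
    · exact ⟨l, Or.inl ⟨hl, hli⟩⟩

theorem label_unique {e : CExpr k V} (hnd : e.verts.Nodup) {u : V} {l l' : Fin k}
    (h : e.Label u l) (h' : e.Label u l') : l = l' := by
  induction e generalizing l l' with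
  | vertex v i => exact h.2.trans h'.2.symm
  | union e f ihe ihf =>
    simp only [verts, List.nodup_append] at hnd
    obtain ⟨h1, h2, h3⟩ := hnd
    rcases h with h | h <;> rcases h' with h' | h'
    · exact ihe h1 h h'
    · exact absurd rfl (h3 u (mem_of_label h) u (mem_of_label h'))
    · exact absurd rfl (h3 u (mem_of_label h') u (mem_of_label h))
    · exact ihf h2 h h'
  | join i j e ih => exact ih hnd h h'
  | relabel i j e ih =>
    rcases h with ⟨h, hl⟩ | ⟨h, hl⟩ <;> rcases h' with ⟨h', hl'⟩ | ⟨h', hl'⟩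
    · exact ih hnd h h'
    · exact absurd (ih hnd h h') hl
    · exact absurd (ih hnd h' h) hl'
    · exact hl.trans hl'.symm

theorem mem_of_adj {e : CExpr k V} {u v : V} (h : e.Adj u v) : u ∈ e.verts ∧ v ∈ e.verts := by
  induction e with
  | vertex v i => exact h.elim
  | union e f ihe ihf =>
    simp only [verts, List.mem_append]
    rcases h with h | h
    · exact ⟨Or.inl (ihe h).1, Or.inl (ihe h).2⟩
    · exact ⟨Or.inr (ihf h).1, Or.inr (ihf h).2⟩
  | join i j e ih =>
    rcases h with h | ⟨_, ⟨h1, h2⟩ | ⟨h1, h2⟩⟩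
    · exact ih h
    · exact ⟨mem_of_label h1, mem_of_label h2⟩
    · exact ⟨mem_of_label h1, mem_of_label h2⟩
  | relabel i j e ih => exact ih h

theorem label_relabel {i j : Fin k} {e : CExpr k V} {u : V} {m : Fin k} :
    (relabel i j e).Label u m ↔ ∃ l, e.Label u l ∧ m = if l = i then j else l := by
  constructor
  · rintro (⟨h, hm⟩ | ⟨h, rfl⟩)
    · exact ⟨m, h, by rw [if_neg hm]⟩
    · exact ⟨i, h, by rw [if_pos rfl]⟩
  · rintro ⟨l, h, rfl⟩
    by_cases hl : l = i
    · subst hl
      rw [if_pos rfl]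
      exact Or.inr ⟨h, rfl⟩
    · rw [if_neg hl]
      exact Or.inl ⟨h, hl⟩

theorem exists_vert (e : CExpr k V) : ∃ v, v ∈ e.verts := by
  induction e with
  | vertex v i => exact ⟨v, by simp [verts]⟩
  | union e f ihe _ =>
    obtain ⟨v, hv⟩ := ihe
    exact ⟨v, by simp [verts, hv]⟩
  | join i j e ih => exact ih
  | relabel i j e ih => exact ih

theorem cut_of {G : SimpleGraph V} [DecidableEq V] (e : CExpr k V)
    (hout : ∀ u u' l, e.Label u l → e.Label u' l → ∀ b, b ∉ e.verts → G.Adj u b → G.Adj u' b) :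
    Cut G k e.verts.toFinset := by
  classical
  obtain ⟨v, hv⟩ := e.exists_vert
  obtain ⟨l₀, _⟩ := exists_label hv
  have hlab : ∀ u, u ∈ e.verts → e.Label u (if h : ∃ l, e.Label u l then h.choose else l₀) := by
    intro u hu
    have h1 := exists_label hu
    rw [dif_pos h1]
    exact h1.choose_spec
  refine ⟨fun u => if h : ∃ l, e.Label u l then h.choose else l₀, ?_⟩
  intro a ha a' ha' hl b hb hadj
  rw [List.mem_toFinset] at ha ha' hb
  have h1 := hlab a ha
  have h2 := hlab a' ha'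
  dsimp only at hl
  rw [hl] at h1
  exact hout a a' _ h1 h2 b hb hadj

theorem lay (G : SimpleGraph V) [DecidableEq V] (e : CExpr k V) (hnd : e.verts.Nodup)
    (hJ : ∃ J : Fin k → Fin k → Prop, ∀ u ∈ e.verts, ∀ v ∈ e.verts, G.Adj u v ↔
      e.Adj u v ∨ ∃ l l', e.Label u l ∧ e.Label v l' ∧ J l l')
    (hout : ∀ u u' l, e.Label u l → e.Label u' l → ∀ b, b ∉ e.verts → G.Adj u b → G.Adj u' b) :
    Lay (Cut G k) e.verts.toFinset := by
  have hcut := cut_of e hout
  induction e with
  | vertex v i =>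
    have h1 : (vertex v i : CExpr k V).verts.toFinset = {v} := by simp [verts]
    rw [h1] at hcut ⊢
    exact Lay.leaf v hcut
  | union e f ihe ihf =>
    have h1 : (union e f).verts.toFinset = e.verts.toFinset ∪ f.verts.toFinset := by
      simp [verts, List.toFinset_append]
    simp only [verts, List.nodup_append] at hnd
    obtain ⟨n1, n2, n3⟩ := hnd
    obtain ⟨J, hJ⟩ := hJ
    have hdis : ∀ x, x ∈ e.verts → x ∉ f.verts := fun x hx hx' => n3 x hx x hx' rfl
    -- the cut condition for one of the two parts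
    have hsub : ∀ (a b : CExpr k V), a.verts.Nodup → (∀ x, x ∈ a.verts → x ∉ b.verts) →
        (∀ u, u ∈ a.verts ∨ u ∈ b.verts → ∀ v, v ∈ a.verts ∨ v ∈ b.verts → (G.Adj u v ↔
          (a.Adj u v ∨ b.Adj u v) ∨ ∃ l l', (a.Label u l ∨ b.Label u l) ∧
            (a.Label v l' ∨ b.Label v l') ∧ J l l')) →
        (∀ u u' l, (a.Label u l ∨ b.Label u l) → (a.Label u' l ∨ b.Label u' l) →
          ∀ c, c ∉ a.verts → c ∉ b.verts → G.Adj u c → G.Adj u' c) →
        (∀ u ∈ a.verts, ∀ v ∈ a.verts, G.Adj u v ↔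
          a.Adj u v ∨ ∃ l l', a.Label u l ∧ a.Label v l' ∧ J l l') ∧
        ∀ u u' l, a.Label u l → a.Label u' l → ∀ c, c ∉ a.verts → G.Adj u c → G.Adj u' c := by
      intro a b hnda hab hJ' hout'
      have hbl : ∀ x, x ∈ a.verts → ∀ l, ¬ b.Label x l := fun x hx l hl =>
        hab x hx (mem_of_label hl)
      constructor
      · intro u hu v hv
        rw [hJ' u (Or.inl hu) v (Or.inl hv)]
        constructor
        · rintro ((h | h) | ⟨l, l', h1, h2, h3⟩)
          · exact Or.inl h
          · exact absurd (mem_of_adj h).1 (hab u hu)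
          · exact Or.inr ⟨l, l', h1.resolve_right (hbl u hu l), h2.resolve_right (hbl v hv l'), h3⟩
        · rintro (h | ⟨l, l', h1, h2, h3⟩)
          · exact Or.inl (Or.inl h)
          · exact Or.inr ⟨l, l', Or.inl h1, Or.inl h2, h3⟩
      · intro u u' l hl hl' c hc hadj
        by_cases hcb : c ∈ b.verts
        · have hu := mem_of_label hl
          have hu' := mem_of_label hl'
          rw [hJ' u (Or.inl hu) c (Or.inr hcb)] at hadj
          rw [hJ' u' (Or.inl hu') c (Or.inr hcb)]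
          rcases hadj with (h | h) | ⟨l1, l2, h1, h2, h3⟩
          · exact absurd (mem_of_adj h).2 hc
          · exact absurd (mem_of_adj h).1 (hab u hu)
          · have h1' := h1.resolve_right (hbl u hu l1)
            have : l1 = l := label_unique hnda h1' hl
            subst this
            exact Or.inr ⟨l1, l2, Or.inl hl', h2, h3⟩
        · exact hout' u u' l (Or.inl hl) (Or.inl hl') c hc hcb hadj
    obtain ⟨s1, s2⟩ := hsub e f n1 hdis
      (fun u hu v hv => hJ u (by simpa [verts] using hu) v (by simpa [verts] using hv))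
      (fun u u' l hl hl' c hc hc' => hout u u' l hl hl' c (by simp [verts, hc, hc']))
    obtain ⟨s3, s4⟩ := hsub f e n2 (fun x hx hx' => hdis x hx' hx)
      (fun u hu v hv => by
        rw [hJ u (by simpa [verts] using hu.symm) v (by simpa [verts] using hv.symm)]
        simp only [Adj, Label]
        constructor
        · rintro (h | ⟨l, l', h1, h2, h3⟩)
          · exact Or.inl h.symm
          · exact Or.inr ⟨l, l', h1.symm, h2.symm, h3⟩
        · rintro (h | ⟨l, l', h1, h2, h3⟩)
          · exact Or.inl h.symm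
          · exact Or.inr ⟨l, l', h1.symm, h2.symm, h3⟩)
      (fun u u' l hl hl' c hc hc' => hout u u' l hl.symm hl'.symm c (by simp [verts, hc, hc']))
    rw [h1] at hcut ⊢
    refine Lay.node _ _ ?_ (ihe n1 ⟨J, s1⟩ s2 (cut_of e s2))
      (ihf n2 ⟨J, s3⟩ s4 (cut_of f s4)) hcut
    rw [Finset.disjoint_left]
    intro x hx hx'
    exact hdis x (List.mem_toFinset.1 hx) (List.mem_toFinset.1 hx')
  | join i j e ih =>
    obtain ⟨J, hJ⟩ := hJ
    refine ih hnd ⟨fun l l' => J l l' ∨ (i ≠ j ∧ ((l = i ∧ l' = j) ∨ (l = j ∧ l' = i))),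
      fun u hu v hv => ?_⟩ hout hcut
    rw [hJ u hu v hv]
    simp only [Adj, Label]
    constructor
    · rintro ((h | ⟨hij, ⟨h1, h2⟩ | ⟨h1, h2⟩⟩) | ⟨l, l', h1, h2, h3⟩)
      · exact Or.inl h
      · exact Or.inr ⟨i, j, h1, h2, Or.inr ⟨hij, Or.inl ⟨rfl, rfl⟩⟩⟩
      · exact Or.inr ⟨j, i, h1, h2, Or.inr ⟨hij, Or.inr ⟨rfl, rfl⟩⟩⟩
      · exact Or.inr ⟨l, l', h1, h2, Or.inl h3⟩
    · rintro (h | ⟨l, l', h1, h2, h3 | ⟨hij, ⟨rfl, rfl⟩ | ⟨rfl, rfl⟩⟩⟩)
      · exact Or.inl (Or.inl h)
      · exact Or.inr ⟨l, l', h1, h2, h3⟩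
      · exact Or.inl (Or.inr ⟨hij, Or.inl ⟨h1, h2⟩⟩)
      · exact Or.inl (Or.inr ⟨hij, Or.inr ⟨h1, h2⟩⟩)
  | relabel i j e ih =>
    obtain ⟨J, hJ⟩ := hJ
    refine ih hnd ⟨fun l l' => J (if l = i then j else l) (if l' = i then j else l'),
      fun u hu v hv => ?_⟩ ?_ hcut
    · rw [hJ u hu v hv]
      simp only [label_relabel]
      constructor
      · rintro (h | ⟨l, l', ⟨m, h1, rfl⟩, ⟨m', h2, rfl⟩, h3⟩)
        · exact Or.inl h
        · exact Or.inr ⟨m, m', h1, h2, h3⟩
      · rintro (h | ⟨m, m', h1, h2, h3⟩)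
        · exact Or.inl h
        · exact Or.inr ⟨_, _, ⟨m, h1, rfl⟩, ⟨m', h2, rfl⟩, h3⟩
    · intro u u' l hl hl' b hb hadj
      exact hout u u' (if l = i then j else l) (label_relabel.2 ⟨l, hl, rfl⟩)
        (label_relabel.2 ⟨l, hl', rfl⟩) b hb hadj

end CExpr

/-- **Layouts from clique-width.** -/
theorem lay_of_cliquewidth {V : Type} [Fintype V] [DecidableEq V] (G : SimpleGraph V) {k : ℕ}
    (h : CliquewidthLE G k) : Lay (Cut G k) Finset.univ := by
  obtain ⟨e, hnd, hall, hadj⟩ := h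
  have := CExpr.lay G e hnd ⟨fun _ _ => False, fun u _ v _ => by simp [hadj u v]⟩
    (fun _ _ _ _ _ b hb => absurd (hall b) hb)
  have huniv : e.verts.toFinset = Finset.univ := by
    ext v
    simp [hall v]
  rwa [huniv] at this

end Pool.Agent.Lib.MP_37c7bf_co_CW
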