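import Pool.Agent.Lib.MP_37c7bf_co_h26tw.Machine
import Pool.Agent.Lib.MP_37c7bf_co_h26tw.Tw
import Pool.Agent.Lib.MP_37c7bf_co_CW.Defs
import Pool.Agent.Lib.FOLFP.Def

section TGPart

/-!
# Typed first-order definability over a larger range

As `MP_37c7bf_co_Poly.TDef`, for programs whose arrays are indexed by numbers below
`N ^ (D + 1)`: relations of tuples of elements of `Fin N`.
-/

set_option autoImplicit false

namespace Pool.Agent.Lib.MP_37c7bf_co_CW

open Pool.Agent.Lib.PolyTM Pool.Agent.Lib.FOLFP Function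

variable {W1 : Type} [DecidableEq W1] {ι : W1 → Type} [∀ w, Fintype (ι w)]
  [∀ w, DecidableEq (ι w)] {D : ℕ}

/-- Definability of a relation of tuples of elements of `Fin N`. -/
def TG (ι : W1 → Type) [∀ w, Fintype (ι w)] (D : ℕ) (C : ℕ → Arr (Option W1) → Prop)
    (κ : Type) [DecidableEq κ] (R : ∀ N, Arr (Option W1) → (κ → Fin N) → Prop) : Prop :=
  BDef ι (D + 1) C κ (fun N a e => ∃ h : ∀ x, e x < N, R N a fun x => ⟨e x, h x⟩)

theorem lt_pow {N x : ℕ} (h : x < N) : x < N ^ (D + 1) := by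
  have h1 : 0 < N ^ D := pow_pos (by omega) _
  have h2 : N ^ (D + 1) = N ^ D * N := pow_succ _ _
  nlinarith

namespace TG

variable {C : ℕ → Arr (Option W1) → Prop} {κ κ' lam : Type} [DecidableEq κ] [DecidableEq κ']
  [DecidableEq lam] {R S : ∀ N, Arr (Option W1) → (κ → Fin N) → Prop}

theorem congr (h : TG ι D C κ R) (hRS : ∀ N a (e : κ → Fin N), C N a → (R N a e ↔ S N a e)) :
    TG ι D C κ S :=
  BDef.congr h fun N a _ hC _ =>
    ⟨fun ⟨h1, h2⟩ => ⟨h1, (hRS N a _ hC).1 h2⟩, fun ⟨h1, h2⟩ => ⟨h1, (hRS N a _ hC).2 h2⟩⟩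

section

variable [Fintype κ]

theorem of_bdef {R' : ℕ → Arr (Option W1) → (κ → ℕ) → Prop} (h : BDef ι (D + 1) C κ R')
    (hR : ∀ N a (e : κ → Fin N), C N a → (R N a e ↔ R' N a fun x => e x)) : TG ι D C κ R := by
  refine BDef.congr ((BDef.forall' fun x => BDef.isVert (D := D) x).and h) fun N a e hC _ => ?_
  constructor
  · rintro ⟨g1, g2⟩
    exact ⟨g1, (hR N a _ hC).2 g2⟩
  · rintro ⟨h1, h2⟩
    exact ⟨h1, (hR N a _ hC).1 h2⟩

theorem not (h : TG ι D C κ R) : TG ι D C κ (fun N a e => ¬ R N a e) := by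
  refine BDef.congr ((BDef.forall' fun x => BDef.isVert (D := D) x).and (BDef.not h))
    fun N a e _ _ => ?_
  constructor
  · rintro ⟨g1, g2⟩
    exact ⟨g1, fun g' => g2 ⟨g1, g'⟩⟩
  · rintro ⟨h1, h2⟩
    exact ⟨h1, fun ⟨_, h4⟩ => h2 h4⟩

end

theorem and (h : TG ι D C κ R) (h' : TG ι D C κ S) :
    TG ι D C κ (fun N a e => R N a e ∧ S N a e) := by
  refine BDef.congr (BDef.and h h') fun N a e _ _ => ?_
  constructor
  · rintro ⟨⟨h1, h2⟩, ⟨h3, h4⟩⟩
    exact ⟨h1, h2, h4⟩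
  · rintro ⟨h1, h2, h4⟩
    exact ⟨⟨h1, h2⟩, ⟨h1, h4⟩⟩

variable [Fintype κ]

theorem or (h : TG ι D C κ R) (h' : TG ι D C κ S) :
    TG ι D C κ (fun N a e => R N a e ∨ S N a e) :=
  (h.not.and h'.not).not.congr (by intro N a e _; tauto)

theorem imp (h : TG ι D C κ R) (h' : TG ι D C κ S) :
    TG ι D C κ (fun N a e => R N a e → S N a e) :=
  (h.not.or h').congr (by intro N a e _; tauto)

theorem const (p : Prop) : TG ι D C κ (fun _ _ _ => p) :=
  of_bdef (BDef.const p) fun _ _ _ _ => Iff.rfl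

theorem forall' {J : Type*} [Finite J] {R : J → ∀ N, Arr (Option W1) → (κ → Fin N) → Prop}
    (h : ∀ j, TG ι D C κ (R j)) : TG ι D C κ (fun N a e => ∀ j, R j N a e) := by
  refine BDef.congr ((BDef.forall' fun x => BDef.isVert (D := D) x).and (BDef.forall' h))
    fun N a e _ _ => ?_
  constructor
  · rintro ⟨g1, g⟩
    exact ⟨g1, fun j => (g j).2⟩
  · rintro ⟨h1, h2⟩
    exact ⟨h1, fun j => ⟨h1, h2 j⟩⟩

theorem exists' {J : Type*} [Finite J] {R : J → ∀ N, Arr (Option W1) → (κ → Fin N) → Prop}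
    (h : ∀ j, TG ι D C κ (R j)) : TG ι D C κ (fun N a e => ∃ j, R j N a e) :=
  (forall' fun j => (h j).not).not.congr (by intro N a e _; push Not; rfl)

/-- Existential quantification over tuples. -/
theorem ex [Fintype lam] {R : ∀ N, Arr (Option W1) → (κ ⊕ lam → Fin N) → Prop}
    (h : TG ι D C (κ ⊕ lam) R) :
    TG ι D C κ (fun N a e => ∃ t : lam → Fin N, R N a (Sum.elim e t)) := by
  refine BDef.congr ((BDef.forall' fun x => BDef.isVert (D := D) x).and (BDef.ex h))
    fun N a e _ _ => ?_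
  constructor
  · rintro ⟨g1, t, _, h1, h2⟩
    refine ⟨g1, fun l => ⟨t l, h1 (Sum.inr l)⟩, ?_⟩
    refine (iff_of_eq (congrArg (R N a) ?_)).mp h2
    funext x
    cases x <;> rfl
  · rintro ⟨h1, t, h2⟩
    refine ⟨h1, fun l => t l, fun l => lt_pow (t l).2, ?_, ?_⟩
    · intro x
      cases x with
      | inl x => exact h1 x
      | inr x => exact (t x).2
    · refine (iff_of_eq (congrArg (R N a) ?_)).mp h2
      funext x
      cases x <;> rfl

theorem all [Fintype lam] {R : ∀ N, Arr (Option W1) → (κ ⊕ lam → Fin N) → Prop}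
    (h : TG ι D C (κ ⊕ lam) R) :
    TG ι D C κ (fun N a e => ∀ t : lam → Fin N, R N a (Sum.elim e t)) :=
  h.not.ex.not.congr (by intro N a e _; push Not; rfl)

theorem eq (x y : κ) : TG ι D C κ (fun _ _ e => e x = e y) :=
  of_bdef (BDef.eq x y) fun _ _ _ _ => by rw [Fin.ext_iff]

theorem lt (x y : κ) : TG ι D C κ (fun _ _ e => e x < e y) :=
  of_bdef (BDef.lt x y) fun _ _ _ _ => Iff.rfl

/-- The adjacency relation given by the input. -/
def Adj (N : ℕ) (a : Arr (Option W1)) (x y : Fin N) : Prop := BAdj N a x y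

theorem adj (x y : κ) : TG ι D C κ (fun N a e => Adj N a (e x) (e y)) :=
  of_bdef (BDef.adj x y) fun _ _ _ _ => Iff.rfl

/-- The contents of a table. -/
def Tab (ι : W1 → Type) [∀ w, Fintype (ι w)] (D N : ℕ) (a : Arr (Option W1)) (w : W1)
    (E : ι w → Fin N) : Prop := BA ι (D + 1) N a w (fun i => E i)

theorem tab (w : W1) (f : ι w → κ) :
    TG ι D C κ (fun N a e => Tab ι D N a w fun i => e (f i)) :=
  of_bdef (BDef.arr w f) fun _ _ _ _ => Iff.rfl

end TG

/-- The least fixed point of an operator on relations. -/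
def Lfp {X : Type*} (Φ : (X → Prop) → X → Prop) (E : X) : Prop :=
  ∀ P : X → Prop, (∀ E, Φ P E → P E) → P E

/-- A table can be filled with the least fixed point of a definable monotone operator. -/
theorem tg_lfp (w : W1)
    {Φ : ∀ N, (Fin N → Fin N → Prop) → ((ι w → Fin N) → Prop) → (ι w → Fin N) → Prop}
    (hmono : ∀ N A (P P' : (ι w → Fin N) → Prop), (∀ E, P E → P' E) →
      ∀ E, Φ N A P E → Φ N A P' E)
    (h : TG ι D (fun _ _ => True) (ι w)
      (fun N a E => Φ N (TG.Adj N a) (TG.Tab ι D N a w) E)) :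
    PDef (Sum.elim (bar ι (D + 1)) (bar ι (D + 1))) (fun N σ τ =>
      (∀ l, mn σ (some w) l = false) →
        τ.o = σ.o ∧ (∀ w' ≠ some w, mn τ w' = mn σ w') ∧
        ∀ E : ι w → Fin N, TG.Tab ι D N (mn τ) w E ↔
          Lfp (Φ N (TG.Adj N (mn σ))) E) := by
  refine (blfp_step (C := fun _ _ => True) w h fun _ _ _ _ _ => trivial).mono ?_
  intro N σ τ hs hσ
  obtain ⟨s1, s2, s3, s4⟩ := hs trivial hσ
  have hadj : ∀ M : Arr (Option W1), (∀ w' ≠ some w, M w' = mn τ w') →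
      TG.Adj N M = TG.Adj N (mn σ) := by
    intro M hM
    funext x y
    unfold TG.Adj BAdj
    rw [hM none (by simp), s2 none (by simp)]
  refine ⟨s1, s2, fun E => ⟨?_, ?_⟩⟩
  · intro hE
    have := s4 (fun E' => ∀ h : ∀ i, E' i < N,
      Lfp (Φ N (TG.Adj N (mn σ))) fun i => ⟨E' i, h i⟩) ?_ (fun i => E i)
      (fun i => lt_pow (E i).2) hE
    · exact this fun i => (E i).2
    · intro M hM hMP E' _ ⟨_, hR⟩ h'
      have hR : Φ N (TG.Adj N M) (TG.Tab ι D N M w) fun x => ⟨E' x, h' x⟩ := hR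
      rw [hadj M hM] at hR
      intro P hP
      refine hP _ (hmono N _ _ _ (fun E'' hE'' => ?_) _ hR)
      exact hMP (fun i => E'' i) (fun i => lt_pow (E'' i).2) hE'' (fun i => (E'' i).2) P hP
  · intro hE
    refine hE _ fun E' hE' => ?_
    refine s3 (fun i => E' i) (fun i => lt_pow (E' i).2) ⟨fun i => (E' i).2, ?_⟩
    change Φ N (TG.Adj N (mn τ)) (TG.Tab ι D N (mn τ) w) E'
    rw [hadj (mn τ) fun _ _ => rfl]
    exact hE'

/-- The input graph can be replaced by a definable relation. -/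
theorem tg_assign {C : ℕ → Arr (Option W1) → Prop}
    {R : ∀ N, Arr (Option W1) → (Fin 2 → Fin N) → Prop} (h : TG ι D C (Fin 2) R) :
    PDef (Sum.elim (bar ι (D + 1)) (bar ι (D + 1))) (fun N σ τ => C N (mn σ) →
      τ.o = σ.o ∧ (∀ w, mn τ (some w) = mn σ (some w)) ∧
      ∀ x y, BAdj N (mn τ) x y ↔ ∃ (hx : x < N) (hy : y < N),
        R N (mn σ) ![⟨x, hx⟩, ⟨y, hy⟩]) := by
  refine (assign_step h).mono ?_
  intro N σ τ hs hC
  obtain ⟨s1, s2, s3⟩ := hs hC
  refine ⟨s1, s2, fun x y => ?_⟩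
  rw [s3]
  constructor
  · rintro ⟨hx, hy, h1, h2⟩
    refine ⟨hx, hy, (iff_of_eq (congrArg (R N (mn σ)) ?_)).mp h2⟩
    funext i
    fin_cases i <;> rfl
  · rintro ⟨hx, hy, h2⟩
    refine ⟨hx, hy, ?_, (iff_of_eq (congrArg (R N (mn σ)) ?_)).mp h2⟩
    · intro i
      fin_cases i
      exacts [hx, hy]
    · funext i
      fin_cases i <;> rfl

end Pool.Agent.Lib.MP_37c7bf_co_CW

end TGPart

section MachinePart

/-!
# The Turing machine: clusters, the sparse graph, and the dynamic programme on it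
-/

set_option autoImplicit false

namespace Pool.Agent.Lib.MP_37c7bf_co_CW

open Pool.Agent.Lib.PolyTM Pool.Agent.Lib.FOLFP Function Turing
open Pool.Agent.Lib.MP_37c7bf_co_h26tw

variable {k D : ℕ} {C : ℕ → Arr (Option Nm) → Prop} {κ : Type} [DecidableEq κ]

/-- The contents of the table of clusters. -/
def tcl (k D N : ℕ) (a : Arr (Option Nm)) (s : Fin 14 → Fin N) (v : Fin N) : Prop :=
  TG.Tab (idx k) D N a .cl (Sum.elim s fun _ => v)

variable [Fintype κ]

theorem tg_inj {m : ℕ} (f : Fin m → κ) :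
    TG (idx k) D C κ (fun _ _ e => Injective fun i => e (f i)) :=
  TG.forall' fun i => TG.forall' fun j => (TG.eq (f i) (f j)).imp (TG.const (i = j))

theorem tg_cl (f : Fin 14 → κ) (x : κ) :
    TG (idx k) D C κ (fun N a e => tcl k D N a (fun i => e (f i)) (e x)) := by
  refine (TG.tab (ι := idx k) .cl (Sum.elim f fun _ => x)).congr ?_
  intro N a e _
  unfold tcl
  refine iff_of_eq (congrArg (TG.Tab (idx k) D N a .cl) ?_)
  funext i
  cases i <;> rfl

theorem tg_seed (f : Fin 14 → κ) :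
    TG (idx k) D C κ (fun N a e => SeedR (TG.Adj N a) fun i => e (f i)) :=
  (tg_inj f).and (TG.forall' fun i => TG.forall' fun j =>
    (TG.const _).imp ((TG.const _).imp (TG.adj (f i) (f j))))

/-- The rule of the clusters. -/
def cst {N : ℕ} (A : Fin N → Fin N → Prop) (P : (idx k .cl → Fin N) → Prop)
    (E : idx k .cl → Fin N) : Prop :=
  MStep A (fun s v => P (Sum.elim s fun _ => v)) (fun i => E (.inl i)) (E (.inr ()))

theorem tg_cst : TG (idx k) D C (idx k .cl)
    (fun N a E => cst (k := k) (TG.Adj N a) (TG.Tab (idx k) D N a .cl) E) := by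
  have h : TG (idx k) D C (((Fin 14 ⊕ Unit) ⊕ Fin 14) ⊕ Fin 3) (fun N a e =>
      (Injective fun l : Fin 3 => e (.inr l)) ∧
      ∀ l : Fin 3, tcl k D N a (fun i => e (.inl (.inl (.inl i)))) (e (.inr l)) ∧
        tcl k D N a (fun i => e (.inl (.inr i))) (e (.inr l))) :=
    (tg_inj _).and (TG.forall' fun l => (tg_cl (fun i => Sum.inl (Sum.inl (Sum.inl i))) _).and
      (tg_cl (fun i => Sum.inl (Sum.inr i)) _))
  have h2 : TG (idx k) D C ((Fin 14 ⊕ Unit) ⊕ Fin 14) (fun N a e =>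
      (∃ x : Fin 3 → Fin N, Injective x ∧
        ∀ l, tcl k D N a (fun i => e (.inl (.inl i))) (x l) ∧ tcl k D N a (fun i => e (.inr i)) (x l)) ∧
      tcl k D N a (fun i => e (.inr i)) (e (.inl (.inr ())))) :=
    h.ex.and (tg_cl _ _)
  have h3 : TG (idx k) D C (Fin 14 ⊕ Unit) (fun N a e => SeedR (TG.Adj N a) (fun i => e (.inl i)) ∧
      ((∃ i : Fin 14, e (.inr ()) = e (.inl i)) ∨ ∃ t : Fin 14 → Fin N,
        (∃ x : Fin 3 → Fin N, Injective x ∧
          ∀ l, tcl k D N a (fun i => e (.inl i)) (x l) ∧ tcl k D N a t (x l)) ∧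
        tcl k D N a t (e (.inr ())))) :=
    (tg_seed _).and ((TG.exists' fun i => TG.eq _ _).or h2.ex)
  exact h3

theorem cst_mono {N : ℕ} (A : Fin N → Fin N → Prop) (P P' : (idx k .cl → Fin N) → Prop)
    (h : ∀ E, P E → P' E) (E : idx k .cl → Fin N) (hE : cst (k := k) A P E) :
    cst (k := k) A P' E :=
  MStep.mono (fun _ _ h' => h _ h') hE

/-- The fixed point is the cluster relation. -/
theorem lfp_cst {N : ℕ} (A : Fin N → Fin N → Prop) (s : Fin 14 → Fin N) (v : Fin N) :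
    Lfp (cst (k := k) A) (Sum.elim s fun _ => v) ↔ InM A s v := by
  constructor
  · intro h R hR
    exact h (fun E => R (fun i => E (.inl i)) (E (.inr ()))) fun E hE => hR _ _ hE
  · intro h P hP
    refine h (fun s v => P (Sum.elim s fun _ => v)) fun s v hst => ?_
    exact hP (Sum.elim s fun _ => v) hst

theorem tg_base (f : Fin 14 → κ) (x : κ) :
    TG (idx k) D C κ (fun N a e => IsBase (tcl k D N a) (fun i => e (f i)) (e x)) := by
  have h : TG (idx k) D C (κ ⊕ Fin 3) (fun N a e => (Injective fun l : Fin 3 => e (.inr l)) ∧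
      ∀ l : Fin 3, tcl k D N a (fun i => e (.inl (f i))) (e (.inr l)) ∧ e (.inr l) < e (.inl x)) :=
    (tg_inj _).and (TG.forall' fun l => (tg_cl _ _).and (TG.lt _ _))
  exact (tg_cl _ _).and h.ex.not

theorem tg_hrel : TG (idx k) D C (Fin 2)
    (fun N a e => HRel (TG.Adj N a) (tcl k D N a) (e 0) (e 1)) := by
  have h1 : TG (idx k) D C (Fin 2 ⊕ Fin 14) (fun N a e =>
      tcl k D N a (fun i => e (.inr i)) (e (.inl 0)) ∧
      tcl k D N a (fun i => e (.inr i)) (e (.inl 1))) :=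
    (tg_cl _ _).and (tg_cl _ _)
  have h2 : TG (idx k) D C (Fin 2 ⊕ Fin 14) (fun N a e =>
      tcl k D N a (fun i => e (.inr i)) (e (.inl 0)) ∧
      tcl k D N a (fun i => e (.inr i)) (e (.inl 1)) ∧
      (IsBase (tcl k D N a) (fun i => e (.inr i)) (e (.inl 0)) ∨
        IsBase (tcl k D N a) (fun i => e (.inr i)) (e (.inl 1)))) :=
    (tg_cl _ _).and ((tg_cl _ _).and ((tg_base _ _).or (tg_base _ _)))
  exact (TG.eq _ _).not.and (((TG.adj _ _).and h1.ex.not).or h2.ex)

/-- The adjacency relation of the input. -/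
theorem tadj_init (I : Graph) : TG.Adj I.n (mn (init Nm I)) = I.G.Adj := by
  funext x y
  apply propext
  unfold TG.Adj
  rw [init_adj]
  constructor
  · rintro ⟨_, _, h⟩; exact h
  · intro h; exact ⟨x.2, y.2, h⟩

/-- **The machine.** It runs the dynamic programme on the sparse graph. -/
theorem machine (k D : ℕ) (small : ∀ n, SimpleGraph (Fin n) → Prop) :
    ∃ (f : Graph → List Bool) (M : TM2ComputableInPolyTime Graph.encode id f),
      (∀ k, Finite (M.tm.Γ k)) ∧ ∀ I : Graph, ∃ (XX : StRel k) (b : Bool),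
        Closed k (D + 1) I.n (adjF (HG I.G)) XX ∧ Inductive k (D + 1) I.n (adjF (HG I.G)) XX ∧
        f I = [b] ∧ (b = true ↔ Small small I.n (adjF (HG I.G)) ∨
          (3 < I.n ∧ Acc k (D + 1) I.n (adjF (HG I.G)) XX)) := by
  have s1 := tg_lfp (ι := idx k) (D := D) Nm.cl (Φ := fun N => cst (k := k) (N := N))
    (fun N A P P' h E hE => cst_mono A P P' h E hE) tg_cst
  have s2 := tg_assign (C := fun _ _ => True) (ι := idx k) (D := D) (tg_hrel (k := k) (D := D))
  obtain ⟨f, M, hM, hf⟩ := machine_of_PDef ((s1.seq s2).seq (dp_pdef k D small))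
  refine ⟨f, M, hM, fun I => ?_⟩
  obtain ⟨τ, ⟨ρ2, ⟨ρ1, q1, q2⟩, q3⟩, hfI⟩ := hf I
  have e0 : ∀ (w : Nm) (l : List ℕ), mn (init Nm I) (some w) l = false :=
    fun w l => init_some I w l
  obtain ⟨o1, u1, c1⟩ := q1 (e0 _)
  obtain ⟨o2, u2, c2⟩ := q2 trivial
  have hcl : tcl k D I.n (mn ρ1) = InM I.G.Adj := by
    funext s v
    apply propext
    rw [← lfp_cst (k := k), ← tadj_init]
    exact c1 _
  have hadj1 : TG.Adj I.n (mn ρ1) = I.G.Adj := by
    rw [← tadj_init]
    funext x y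
    unfold TG.Adj BAdj
    rw [u1 none (by simp)]
  have hadj2 : BAdj I.n (mn ρ2) = adjF (HG I.G) := by
    funext x y
    apply propext
    rw [c2, hcl, hadj1]
    rfl
  obtain ⟨XX, b, d1, d2, d3, d4⟩ := q3 (by
    intro w hw l
    rw [u2, u1 _ (by simpa using hw)]
    exact e0 w l)
  rw [hadj2] at d1 d2 d4
  refine ⟨XX, b, d1, d2, ?_, d4⟩
  rw [hfI, d3, o2, o1]
  rfl

end Pool.Agent.Lib.MP_37c7bf_co_CW

end MachinePart

section MachinePart

/-!
# The Turing machine: clusters, the sparse graph, and the dynamic programme on it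
-/

set_option autoImplicit false

namespace Pool.Agent.Lib.MP_37c7bf_co_MW

open Pool.Agent.Lib.PolyTM Pool.Agent.Lib.FOLFP Function Turing
open Pool.Agent.Lib.MP_37c7bf_co_h26tw Pool.Agent.Lib.MP_37c7bf_co_CW

variable {k D : ℕ} {C : ℕ → Arr (Option Nm) → Prop}

/-- The rule of the clusters. -/
def wst {N : ℕ} (A : Fin N → Fin N → Prop) (P : (idx k .cl → Fin N) → Prop)
    (E : idx k .cl → Fin N) : Prop :=
  WStep A (fun s v => P (Sum.elim s fun _ => v)) (fun i => E (.inl i)) (E (.inr ()))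

theorem tg_wst : TG (idx k) D C (idx k .cl)
    (fun N a E => wst (k := k) (TG.Adj N a) (TG.Tab (idx k) D N a .cl) E) := by
  have h : TG (idx k) D C (((Fin 14 ⊕ Unit) ⊕ Fin 14) ⊕ Fin 3) (fun N a e =>
      (Injective fun l : Fin 3 => e (.inr l)) ∧
      ∀ l : Fin 3, tcl k D N a (fun i => e (.inl (.inl (.inl i)))) (e (.inr l)) ∧
        tcl k D N a (fun i => e (.inl (.inr i))) (e (.inr l))) :=
    (tg_inj _).and (TG.forall' fun l => (tg_cl (fun i => Sum.inl (Sum.inl (Sum.inl i))) _).and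
      (tg_cl (fun i => Sum.inl (Sum.inr i)) _))
  have h2 : TG (idx k) D C ((Fin 14 ⊕ Unit) ⊕ Fin 14) (fun N a e =>
      (∃ x : Fin 3 → Fin N, Injective x ∧
        ∀ l, tcl k D N a (fun i => e (.inl (.inl i))) (x l) ∧ tcl k D N a (fun i => e (.inr i)) (x l)) ∧
      tcl k D N a (fun i => e (.inr i)) (e (.inl (.inr ())))) :=
    h.ex.and (tg_cl _ _)
  have h0 : TG (idx k) D C ((Fin 14 ⊕ Unit) ⊕ Fin 3) (fun N a e =>
      (Injective fun l : Fin 3 => e (.inr l)) ∧
      ∀ l : Fin 3, tcl k D N a (fun i => e (.inl (.inl i))) (e (.inr l)) ∧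
        TG.Adj N a (e (.inl (.inr ()))) (e (.inr l))) :=
    (tg_inj _).and (TG.forall' fun l => (tg_cl (fun i => Sum.inl (Sum.inl i)) _).and
      (TG.adj _ _))
  have h3 : TG (idx k) D C (Fin 14 ⊕ Unit) (fun N a e => SeedR (TG.Adj N a) (fun i => e (.inl i)) ∧
      ((∃ i : Fin 14, e (.inr ()) = e (.inl i)) ∨
      (∃ u : Fin 3 → Fin N, Injective u ∧
        ∀ l, tcl k D N a (fun i => e (.inl i)) (u l) ∧ TG.Adj N a (e (.inr ())) (u l)) ∨
      ∃ t : Fin 14 → Fin N,
        (∃ x : Fin 3 → Fin N, Injective x ∧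
          ∀ l, tcl k D N a (fun i => e (.inl i)) (x l) ∧ tcl k D N a t (x l)) ∧
        tcl k D N a t (e (.inr ())))) :=
    (tg_seed _).and ((TG.exists' fun i => TG.eq _ _).or (h0.ex.or h2.ex))
  exact h3

theorem wst_mono {N : ℕ} (A : Fin N → Fin N → Prop) (P P' : (idx k .cl → Fin N) → Prop)
    (h : ∀ E, P E → P' E) (E : idx k .cl → Fin N) (hE : wst (k := k) A P E) :
    wst (k := k) A P' E :=
  WStep.mono (fun _ _ h' => h _ h') hE

/-- The fixed point is the cluster relation. -/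
theorem lfp_wst {N : ℕ} (A : Fin N → Fin N → Prop) (s : Fin 14 → Fin N) (v : Fin N) :
    Lfp (wst (k := k) A) (Sum.elim s fun _ => v) ↔ InW A s v := by
  constructor
  · intro h R hR
    exact h (fun E => R (fun i => E (.inl i)) (E (.inr ()))) fun E hE => hR _ _ hE
  · intro h P hP
    refine h (fun s v => P (Sum.elim s fun _ => v)) fun s v hst => ?_
    exact hP (Sum.elim s fun _ => v) hst

/-- **The machine.** It runs the dynamic programme on the sparse graph. -/
theorem machine (k D : ℕ) (small : ∀ n, SimpleGraph (Fin n) → Prop) :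
    ∃ (f : Graph → List Bool) (M : TM2ComputableInPolyTime Graph.encode id f),
      (∀ k, Finite (M.tm.Γ k)) ∧ ∀ I : Graph, ∃ (XX : StRel k) (b : Bool),
        Closed k (D + 1) I.n (adjF (HW I.G)) XX ∧ Inductive k (D + 1) I.n (adjF (HW I.G)) XX ∧
        f I = [b] ∧ (b = true ↔ Small small I.n (adjF (HW I.G)) ∨
          (3 < I.n ∧ Acc k (D + 1) I.n (adjF (HW I.G)) XX)) := by
  have s1 := tg_lfp (ι := idx k) (D := D) Nm.cl (Φ := fun N => wst (k := k) (N := N))
    (fun N A P P' h E hE => wst_mono A P P' h E hE) tg_wst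
  have s2 := tg_assign (C := fun _ _ => True) (ι := idx k) (D := D) (tg_hrel (k := k) (D := D))
  obtain ⟨f, M, hM, hf⟩ := machine_of_PDef ((s1.seq s2).seq (dp_pdef k D small))
  refine ⟨f, M, hM, fun I => ?_⟩
  obtain ⟨τ, ⟨ρ2, ⟨ρ1, q1, q2⟩, q3⟩, hfI⟩ := hf I
  have e0 : ∀ (w : Nm) (l : List ℕ), mn (init Nm I) (some w) l = false :=
    fun w l => init_some I w l
  obtain ⟨o1, u1, c1⟩ := q1 (e0 _)
  obtain ⟨o2, u2, c2⟩ := q2 trivial
  have hcl : tcl k D I.n (mn ρ1) = InW I.G.Adj := by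
    funext s v
    apply propext
    rw [← lfp_wst (k := k), ← tadj_init]
    exact c1 _
  have hadj1 : TG.Adj I.n (mn ρ1) = I.G.Adj := by
    rw [← tadj_init]
    funext x y
    unfold TG.Adj BAdj
    rw [u1 none (by simp)]
  have hadj2 : BAdj I.n (mn ρ2) = adjF (HW I.G) := by
    funext x y
    apply propext
    rw [c2, hcl, hadj1]
    rfl
  obtain ⟨XX, b, d1, d2, d3, d4⟩ := q3 (by
    intro w hw l
    rw [u2, u1 _ (by simpa using hw)]
    exact e0 w l)
  rw [hadj2] at d1 d2 d4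
  refine ⟨XX, b, d1, d2, ?_, d4⟩
  rw [hfI, d3, o2, o1]
  rfl

end Pool.Agent.Lib.MP_37c7bf_co_MW

end MachinePart
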