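import Pool.Agent.Lib.MP_37c7bf_co_h26tw.Final
import Pool.Agent.Lib.MP_37c7bf_co_CW.Machine
import Pool.Agent.Lib.MP_37c7bf_co_CW.Layout
import Pool.Agent.Lib.MP_37c7bf_co_CW.LayMono
import Pool.Agent.Lib.MP_37c7bf_co_CW.Equiv
import Pool.Agent.Lib.MP_37c7bf_co_CW.CutCover
import Pool.Agent.Lib.MP_37c7bf_co_CW.Order

/-! # Generic rigidity in 3D is decidable in polynomial time on graphs of bounded clique-width -/

set_option autoImplicit false

namespace Pool.Agent.Lib.MP_37c7bf_co_CW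

open Pool.Agent.Lib.PolyTM Pool.Agent.Lib.FOLFP Function Turing Pool.Agent.H26R
open Pool.Agent.Lib.MP_37c7bf_co_h26tw

/-- Small graphs have no clusters. -/
theorem HG_small {n : ℕ} (hn : n ≤ 3) (G : SimpleGraph (Fin n)) : HG G = G := by
  have hno : ∀ s : Fin 14 → Fin n, ¬ Injective s := by
    intro s hs
    have := Fintype.card_le_of_injective s hs
    simp only [Fintype.card_fin] at this
    omega
  ext x y
  constructor
  · rintro ⟨_, ⟨h, _⟩ | ⟨s, h, _⟩⟩
    · exact h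
    · exact absurd h.seed.1 (hno s)
  · intro h
    exact ⟨h.ne, Or.inl ⟨h, fun ⟨s, h1, _⟩ => hno s h1.seed.1⟩⟩

theorem small_iff' (I : Graph) : Small smallRigid I.n (adjF (HG I.G)) ↔
    I.n ≤ 3 ∧ GenericallyRigid I.G := by
  have h1 := small_iff ⟨I.n, HG I.G⟩
  constructor
  · intro h
    obtain ⟨h2, h3⟩ := h1.1 h
    have h2 : I.n ≤ 3 := h2
    have h3 : GenericallyRigid (HG I.G) := h3
    rw [HG_small h2] at h3
    exact ⟨h2, h3⟩
  · rintro ⟨h2, h3⟩
    refine h1.2 ⟨h2, ?_⟩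
    change GenericallyRigid (HG I.G)
    rw [HG_small h2]
    exact h3

theorem rigid_of_acc' (I : Graph) {k : ℕ} {XX : StRel k} (hn : 3 < I.n)
    (hind : Inductive k 8 I.n (adjF (HG I.G)) XX) (hacc : Acc k 8 I.n (adjF (HG I.G)) XX) :
    GenericallyRigid I.G := by
  rw [rigid_iff_HG (by omega)]
  exact rigid_of_acc ⟨I.n, HG I.G⟩ hn hind hacc

theorem acc_of_rigid' (I : Graph) {c : ℕ} (hn : 3 < I.n) (hc : CliquewidthLE I.G c)
    {XX : StRel (9 * (bnd c + 1) + 2)}
    (hcl : Closed (9 * (bnd c + 1) + 2) 8 I.n (adjF (HG I.G)) XX) (h : GenericallyRigid I.G) :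
    Acc (9 * (bnd c + 1) + 2) 8 I.n (adjF (HG I.G)) XX := by
  classical
  have hlay : Lay (Covered (HG I.G) (bnd c + 1)) Finset.univ :=
    (lay_of_cliquewidth I.G hc).mono fun A hA => by
      obtain ⟨X, hX, h⟩ := covered_HG I.G hA
      exact ⟨X, by omega, h⟩
  obtain ⟨τ, h1, h2, h3⟩ := exists_order_of_lay (by omega) (HG I.G) (bnd c + 1) (by omega) hlay
  rw [rigid_iff_HG (by omega), generic_iff_mod (by omega)] at h
  obtain ⟨q, hq, hprime, p, hp⟩ := h
  exact complete (fun x y ⟨h1, h2, h3⟩ => ⟨h2, h1, h3.symm⟩) (fun x y h => h.2.1)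
    (fun x ⟨_, _, h⟩ => h.ne rfl) (by omega) (by omega) (Nat.le_self_pow (by norm_num) _) hprime hq
    hcl h1 h2 h3 hp

open Classical in
/-- **Main theorem.** -/
theorem main (c : ℕ) : ∃ (f : Graph → List Bool) (M : TM2ComputableInPolyTime Graph.encode id f),
    (∀ k, Finite (M.tm.Γ k)) ∧
    (∀ I : Graph, CliquewidthLE I.G c → f I = [decide (GenericallyRigid I.G)]) ∧
    ∀ I : Graph, f I = [true] → GenericallyRigid I.G := by
  obtain ⟨f, M, hM, hf⟩ := machine (9 * (bnd c + 1) + 2) 7 smallRigid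
  refine ⟨f, M, hM, fun I hc => ?_, fun I hI => ?_⟩
  · obtain ⟨XX, b, hcl, hind, hfb, hb⟩ := hf I
    rw [small_iff'] at hb
    rw [hfb]
    have : b = decide (GenericallyRigid I.G) := by
      rw [Bool.eq_iff_iff, hb, decide_eq_true_eq]
      constructor
      · rintro (⟨_, h⟩ | ⟨h1, h2⟩)
        · exact h
        · exact rigid_of_acc' I h1 hind h2
      · intro h
        rcases Nat.lt_or_ge 3 I.n with hn | hn
        · exact Or.inr ⟨hn, acc_of_rigid' I hn hc hcl h⟩
        · exact Or.inl ⟨hn, h⟩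
    rw [this]
  · obtain ⟨XX, b, hcl, hind, hfb, hb⟩ := hf I
    rw [small_iff'] at hb
    rw [hI] at hfb
    have hbt : b = true := by simpa using hfb.symm
    rcases hb.1 hbt with ⟨_, h⟩ | ⟨h1, h2⟩
    · exact h
    · exact rigid_of_acc' I h1 hind h2

end Pool.Agent.Lib.MP_37c7bf_co_CW
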